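import Mathlib

/-! Definitions: deficiency zero, composition series, composition factors. -/

namespace Pool.Agent.Helper41.DZ

/-- The group `G` has deficiency zero: it has a presentation `⟨X | R⟩` with `X` and `R` finite
and `|X| = |R|`. -/
def DeficiencyZero (G : Type) [Group G] : Prop :=
  ∃ (X : Type) (_ : Fintype X) (R : Finset (FreeGroup X)),
    Fintype.card X = R.card ∧ Nonempty (G ≃* PresentedGroup (R : Set (FreeGroup X)))

/-- `G = H 0 ⊵ H 1 ⊵ ... ⊵ H n = 1` is a composition series of `G`: every `H (i+1)` is a normal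
subgroup of `H i` with simple quotient. -/
def IsCompositionSeries (G : Type) [Group G] (n : ℕ) (H : ℕ → Subgroup G) : Prop :=
  H 0 = ⊤ ∧ H n = ⊥ ∧ ∀ i < n, H (i + 1) ≤ H i ∧
    ∃ _ : ((H (i + 1)).subgroupOf (H i)).Normal,
      IsSimpleGroup (H i ⧸ (H (i + 1)).subgroupOf (H i))

/-- `S` is isomorphic to a factor `H i / H (i+1)` of some composition series of `G`. -/
def IsCompositionFactor (S G : Type) [Group S] [Group G] : Prop :=
  ∃ (n : ℕ) (H : ℕ → Subgroup G), IsCompositionSeries G n H ∧ ∃ i < n,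
    ∃ _ : ((H (i + 1)).subgroupOf (H i)).Normal,
      Nonempty (S ≃* (H i ⧸ (H (i + 1)).subgroupOf (H i)))

end Pool.Agent.Helper41.DZ
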