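import Pool.Agent.Helper41.DZ.Defs

/-! Existence of composition series through a given normal section of a finite group. -/

namespace Pool.Agent.Helper41.DZ

section map

variable {A B : Type} [Group A] [Group B]

theorem subgroupOf_map (f : A →* B) (hf : Function.Injective f) (K H : Subgroup A) :
    (K.subgroupOf H).map ((H.equivMapOfInjective f hf) : H →* H.map f) =
      (K.map f).subgroupOf (H.map f) := by
  ext ⟨b, hb⟩
  rw [Subgroup.mem_subgroupOf]
  constructor
  · rintro ⟨⟨a, ha⟩, haK, hab⟩
    have h1 : f a = b := congrArg Subtype.val hab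
    exact ⟨a, Subgroup.mem_subgroupOf.1 haK, h1⟩
  · rintro ⟨a, haK, hab⟩
    obtain ⟨a', ha', hab'⟩ := hb
    have : a = a' := hf (hab.trans hab'.symm)
    subst this
    refine ⟨⟨a, ha'⟩, Subgroup.mem_subgroupOf.2 haK, ?_⟩
    exact Subtype.ext hab

theorem normal_map (f : A →* B) (hf : Function.Injective f) (K H : Subgroup A)
    (h : (K.subgroupOf H).Normal) : ((K.map f).subgroupOf (H.map f)).Normal := by
  rw [← subgroupOf_map f hf]
  exact Subgroup.Normal.map h _ (H.equivMapOfInjective f hf).surjective

/-- quotients are transported along an injective homomorphism -/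
noncomputable def quotMap (f : A →* B) (hf : Function.Injective f) (K H : Subgroup A)
    (h : (K.subgroupOf H).Normal) (h' : ((K.map f).subgroupOf (H.map f)).Normal) :
    (H ⧸ K.subgroupOf H) ≃* ((H.map f) ⧸ (K.map f).subgroupOf (H.map f)) :=
  QuotientGroup.congr _ _ (H.equivMapOfInjective f hf) (subgroupOf_map f hf K H)

end map

theorem isSimpleGroup_congr {A B : Type} [Group A] [Group B] (e : A ≃* B) (h : IsSimpleGroup A) :
    IsSimpleGroup B := (e.isSimpleGroup_congr).1 h

/-- quotient by a normal subgroup, viewed inside `⊤` -/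
noncomputable def topQuot {G : Type} [Group G] (M : Subgroup G) [M.Normal]
    [(M.subgroupOf ⊤).Normal] : (G ⧸ M) ≃* ((⊤ : Subgroup G) ⧸ M.subgroupOf ⊤) :=
  QuotientGroup.congr _ _ (Subgroup.topEquiv (G := G)).symm (by
    ext ⟨b, hb⟩
    rw [Subgroup.mem_subgroupOf]
    constructor
    · rintro ⟨a, ha, hab⟩
      have : a = b := congrArg Subtype.val hab
      rw [← this]; exact ha
    · intro h
      exact ⟨b, h, rfl⟩)

section cons

variable {G : Type} [Group G] (M : Subgroup G)

/-- extend a series of `M` by `G` on top -/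
def consSeries (H : ℕ → Subgroup M) : ℕ → Subgroup G
  | 0 => ⊤
  | i + 1 => (H i).map M.subtype

theorem consSeries_isSeries [hM : M.Normal] (hS : IsSimpleGroup (G ⧸ M)) {n : ℕ}
    {H : ℕ → Subgroup M} (hH : IsCompositionSeries M n H) :
    IsCompositionSeries G (n + 1) (consSeries M H) := by
  obtain ⟨h0, hn, hstep⟩ := hH
  refine ⟨rfl, ?_, ?_⟩
  · change (H n).map M.subtype = ⊥
    rw [hn, Subgroup.map_bot]
  · intro i hi
    rcases i with _ | i
    · have e : consSeries M H (0 + 1) = M := by
        change (H 0).map M.subtype = M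
        rw [h0, ← MonoidHom.range_eq_map, Subgroup.range_subtype]
      refine ⟨le_top, ?_⟩
      change ∃ _ : ((consSeries M H (0 + 1)).subgroupOf ⊤).Normal,
        IsSimpleGroup ((⊤ : Subgroup G) ⧸ (consSeries M H (0 + 1)).subgroupOf ⊤)
      rw [e]
      have : (M.subgroupOf ⊤).Normal := inferInstance
      exact ⟨this, isSimpleGroup_congr (topQuot M) hS⟩
    · obtain ⟨hle, hnor, hsim⟩ := hstep i (by omega)
      refine ⟨Subgroup.map_mono hle, ?_⟩
      have hnor' := normal_map M.subtype M.subtype_injective (H (i + 1)) (H i) hnor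
      change ∃ _ : (((H (i + 1)).map M.subtype).subgroupOf ((H i).map M.subtype)).Normal,
        IsSimpleGroup (((H i).map M.subtype) ⧸
          ((H (i + 1)).map M.subtype).subgroupOf ((H i).map M.subtype))
      exact ⟨hnor', isSimpleGroup_congr
        (quotMap M.subtype M.subtype_injective (H (i + 1)) (H i) hnor hnor') hsim⟩

theorem factor_cons {S : Type} [Group S] [hM : M.Normal] (hS : IsSimpleGroup (G ⧸ M))
    (h : IsCompositionFactor S M) : IsCompositionFactor S G := by
  obtain ⟨n, H, hH, i, hi, hnor, ⟨e⟩⟩ := h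
  refine ⟨n + 1, consSeries M H, consSeries_isSeries M hS hH, i + 1, by omega, ?_⟩
  have hnor' := normal_map M.subtype M.subtype_injective (H (i + 1)) (H i) hnor
  change ∃ _ : (((H (i + 1)).map M.subtype).subgroupOf ((H i).map M.subtype)).Normal,
    Nonempty (S ≃* (((H i).map M.subtype) ⧸
      ((H (i + 1)).map M.subtype).subgroupOf ((H i).map M.subtype)))
  exact ⟨hnor', ⟨e.trans (quotMap M.subtype M.subtype_injective (H (i + 1)) (H i) hnor hnor')⟩⟩

theorem factor_top {S : Type} [Group S] [hM : M.Normal] (hS : IsSimpleGroup (G ⧸ M))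
    (e : S ≃* G ⧸ M) {n : ℕ} {H : ℕ → Subgroup M} (hH : IsCompositionSeries M n H) :
    IsCompositionFactor S G := by
  refine ⟨n + 1, consSeries M H, consSeries_isSeries M hS hH, 0, by omega, ?_⟩
  have e1 : consSeries M H (0 + 1) = M := by
    change (H 0).map M.subtype = M
    rw [hH.1, ← MonoidHom.range_eq_map, Subgroup.range_subtype]
  change ∃ _ : ((consSeries M H (0 + 1)).subgroupOf ⊤).Normal,
    Nonempty (S ≃* ((⊤ : Subgroup G) ⧸ (consSeries M H (0 + 1)).subgroupOf ⊤))
  rw [e1]
  have : (M.subgroupOf ⊤).Normal := inferInstance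
  exact ⟨this, ⟨e.trans (topQuot M)⟩⟩

end cons

theorem exists_maxNormal {G : Type} [Group G] [Finite G] (L : Subgroup G) [hL : L.Normal]
    (hne : L ≠ ⊤) : ∃ M : Subgroup G, ∃ _ : M.Normal, L ≤ M ∧ M ≠ ⊤ ∧ IsSimpleGroup (G ⧸ M) := by
  obtain ⟨M, hLM, hM⟩ := (Set.toFinite {M : Subgroup G | M.Normal ∧ M ≠ ⊤}).exists_le_maximal
    (a := L) ⟨hL, hne⟩
  have hMn : M.Normal := hM.1.1
  refine ⟨M, hMn, hLM, hM.1.2, ?_⟩
  have hnt : Nontrivial (G ⧸ M) := by
    rw [QuotientGroup.nontrivial_iff]; exact hM.1.2
  refine ⟨?_⟩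
  intro N hN
  by_cases htop : N.comap (QuotientGroup.mk' M) = ⊤
  · right
    rw [eq_top_iff]
    intro x _
    obtain ⟨g, rfl⟩ := QuotientGroup.mk'_surjective M x
    have : g ∈ N.comap (QuotientGroup.mk' M) := by rw [htop]; trivial
    exact this
  · left
    have hle : M ≤ N.comap (QuotientGroup.mk' M) := by
      intro g hg
      have : (QuotientGroup.mk' M) g = 1 := (QuotientGroup.eq_one_iff g).2 hg
      rw [Subgroup.mem_comap, this]; exact N.one_mem
    have h1 := hM.2 (y := N.comap (QuotientGroup.mk' M)) ⟨inferInstance, htop⟩ hle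
    rw [eq_bot_iff]
    intro x hx
    obtain ⟨g, rfl⟩ := QuotientGroup.mk'_surjective M x
    have : g ∈ M := h1 hx
    exact (QuotientGroup.eq_one_iff g).2 this

theorem exists_series : ∀ (n : ℕ) (G : Type) [Group G] [Finite G], Nat.card G = n →
    ∃ (k : ℕ) (H : ℕ → Subgroup G), IsCompositionSeries G k H := by
  intro n
  induction n using Nat.strong_induction_on with
  | _ n ih =>
    intro G _ _ hn
    by_cases hb : (⊥ : Subgroup G) = ⊤
    · exact ⟨0, fun _ => ⊤, rfl, hb.symm, by intro i hi; omega⟩
    · obtain ⟨M, hMn, -, hMtop, hsim⟩ := exists_maxNormal (⊥ : Subgroup G) hb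
      have hlt : Nat.card M < n := by
        rw [← hn]
        exact lt_of_le_of_ne (Subgroup.card_le_card_group M)
          (fun h => hMtop (Subgroup.eq_top_of_card_eq M h))
      obtain ⟨k, H, hH⟩ := ih _ hlt M rfl
      exact ⟨k + 1, consSeries M H, consSeries_isSeries M hsim hH⟩

/-- If a normal subgroup `L` of the finite group `G` maps onto the simple group `S`, then `S` is a
composition factor of `G`. -/
theorem factor_of_section (S : Type) [Group S] (hS : IsSimpleGroup S) :
    ∀ (n : ℕ) (G : Type) [Group G] [Finite G], Nat.card G = n →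
    ∀ (L : Subgroup G), L.Normal → ∀ f : L →* S, Function.Surjective f →
    IsCompositionFactor S G := by
  intro n
  induction n using Nat.strong_induction_on with
  | _ n ih =>
    intro G _ _ hn L hL f hf
    by_cases htop : L = ⊤
    · subst htop
      let f' : G →* S := f.comp (Subgroup.topEquiv (G := G)).symm.toMonoidHom
      have hf' : Function.Surjective f' := hf.comp (Subgroup.topEquiv (G := G)).symm.surjective
      have e : G ⧸ f'.ker ≃* S := QuotientGroup.quotientKerEquivOfSurjective f' hf'
      obtain ⟨k, H, hH⟩ := exists_series _ f'.ker rfl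
      exact factor_top f'.ker (isSimpleGroup_congr e.symm hS) e.symm hH
    · obtain ⟨M, hMn, hLM, hMtop, hsim⟩ := exists_maxNormal L htop
      have hlt : Nat.card M < n := by
        rw [← hn]
        exact lt_of_le_of_ne (Subgroup.card_le_card_group M)
          (fun h => hMtop (Subgroup.eq_top_of_card_eq M h))
      have hLn : (L.subgroupOf M).Normal := inferInstance
      refine factor_cons M hsim (ih _ hlt M rfl (L.subgroupOf M) hLn
        (f.comp (Subgroup.subgroupOfEquivOfLe hLM).toMonoidHom) ?_)
      exact hf.comp (Subgroup.subgroupOfEquivOfLe hLM).surjective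

end Pool.Agent.Helper41.DZ
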