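import Mathlib

/-! The permutation representation on `ZMod p ⊕ Bool`. -/

namespace Pool.Agent.Helper41.DZ

open Equiv Equiv.Perm
open scoped Pointwise

set_option linter.unusedSectionVars false

variable {p : ℕ} [Fact p.Prime]

/-- translation -/
def pU (p : ℕ) : Perm (ZMod p ⊕ Bool) := Equiv.sumCongr (Equiv.addRight 1) (Equiv.refl Bool)

/-- multiplication by the inverse of a unit -/
def pH (ρ : (ZMod p)ˣ) : Perm (ZMod p ⊕ Bool) :=
  Equiv.sumCongr (Units.mulLeft ρ⁻¹) (Equiv.refl Bool)

/-- the 3-cycle `0 → β → α → 0` -/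
def pX (p : ℕ) : Perm (ZMod p ⊕ Bool) :=
  swap (Sum.inr false) (Sum.inr true) * swap (Sum.inr false) (Sum.inl 0)

@[simp] theorem pU_inl (i : ZMod p) : pU p (Sum.inl i) = Sum.inl (i + 1) := rfl
@[simp] theorem pU_inr (b : Bool) : pU p (Sum.inr b) = Sum.inr b := rfl
@[simp] theorem pH_inl (ρ : (ZMod p)ˣ) (i : ZMod p) : pH ρ (Sum.inl i) = Sum.inl (ρ⁻¹ * i) := rfl
@[simp] theorem pH_inr (ρ : (ZMod p)ˣ) (b : Bool) : pH ρ (Sum.inr b) = Sum.inr b := rfl

@[simp] theorem pU_symm_inl (i : ZMod p) : (pU p)⁻¹ (Sum.inl i) = Sum.inl (i - 1) := by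
  rw [Perm.inv_eq_iff_eq]; simp
@[simp] theorem pU_symm_inr (b : Bool) : (pU p)⁻¹ (Sum.inr b) = Sum.inr b := by
  rw [Perm.inv_eq_iff_eq]; simp

theorem pU_pow_inl (n : ℕ) (i : ZMod p) : (pU p ^ n) (Sum.inl i) = Sum.inl (i + n) := by
  induction n with
  | zero => simp
  | succ n ih => rw [pow_succ', Perm.mul_apply, ih]; simp [add_assoc]

theorem pU_pow_inr (n : ℕ) (b : Bool) : (pU p ^ n) (Sum.inr b) = Sum.inr b := by
  induction n with
  | zero => simp
  | succ n ih => rw [pow_succ', Perm.mul_apply, ih]; simp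

theorem pH_pow_inl (ρ : (ZMod p)ˣ) (n : ℕ) (i : ZMod p) :
    (pH ρ ^ n) (Sum.inl i) = Sum.inl (((ρ⁻¹ ^ n : (ZMod p)ˣ) : ZMod p) * i) := by
  induction n with
  | zero => simp
  | succ n ih =>
    rw [pow_succ', Perm.mul_apply, ih, pH_inl, pow_succ', Units.val_mul, mul_assoc]

theorem pH_pow_inr (ρ : (ZMod p)ˣ) (n : ℕ) (b : Bool) :
    (pH ρ ^ n) (Sum.inr b) = Sum.inr b := by
  induction n with
  | zero => simp
  | succ n ih => rw [pow_succ', Perm.mul_apply, ih]; simp

theorem pU_pow_p : (pU p) ^ p = 1 := by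
  ext x
  rcases x with i | b
  · rw [pU_pow_inl]; simp
  · rw [pU_pow_inr]; simp

theorem pH_pow (ρ : (ZMod p)ˣ) {n : ℕ} (h : ρ ^ n = 1) : (pH ρ) ^ n = 1 := by
  ext x
  rcases x with i | b
  · rw [pH_pow_inl, inv_pow, h]; simp
  · rw [pH_pow_inr]; simp

theorem pA (ρ : (ZMod p)ˣ) {r : ℕ} (hr : (ρ : ZMod p) = r) :
    (pH ρ)⁻¹ * pU p * pH ρ = pU p ^ r := by
  have : pU p * pH ρ = pH ρ * pU p ^ r := by
    ext x
    rcases x with i | b
    · simp only [Perm.mul_apply, pU_pow_inl, pH_inl, pU_inl]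
      congr 1
      rw [mul_add, ← hr, Units.inv_mul]
    · simp only [Perm.mul_apply, pU_pow_inr, pH_inr, pU_inr]
  rw [mul_assoc, this]; simp

theorem pX_three : IsThreeCycle (pX p) :=
  isThreeCycle_swap_mul_swap_same (by simp) (by simp) (by simp)

theorem pX_pow : (pX p) ^ 3 = 1 := by
  rw [← (pX_three (p := p)).orderOf]; exact pow_orderOf_eq_one _

theorem pXH (ρ : (ZMod p)ˣ) : Commute (pX p) (pH ρ) := by
  have : pH ρ * pX p * (pH ρ)⁻¹ = pX p := by
    have h1 : pH ρ * pX p * (pH ρ)⁻¹ =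
      (pH ρ * swap (Sum.inr false) (Sum.inr true) * (pH ρ)⁻¹) *
      (pH ρ * swap (Sum.inr false) (Sum.inl 0) * (pH ρ)⁻¹) := by
      rw [pX]; group
    rw [h1, ← swap_apply_apply, ← swap_apply_apply, pH_inr, pH_inr, pH_inl, mul_zero, pX]
  calc pX p * pH ρ = (pH ρ * pX p * (pH ρ)⁻¹) * pH ρ := by rw [this]
    _ = pH ρ * pX p := by simp

theorem pB : (pX p * (pU p)⁻¹ * pX p * pU p) ^ 2 = 1 := by
  have h1 : (pU p)⁻¹ * pX p * pU p =
      swap (Sum.inr false) (Sum.inr true) * swap (Sum.inr false) (Sum.inl (-1)) := by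
    have h2 : (pU p)⁻¹ * pX p * pU p =
      ((pU p)⁻¹ * swap (Sum.inr false) (Sum.inr true) * ((pU p)⁻¹)⁻¹) *
      ((pU p)⁻¹ * swap (Sum.inr false) (Sum.inl 0) * ((pU p)⁻¹)⁻¹) := by
      rw [pX]; group
    rw [h2, ← swap_apply_apply, ← swap_apply_apply]
    simp
  have h3 : pX p * (pU p)⁻¹ * pX p * pU p =
      swap (Sum.inr true) (Sum.inl 0) * swap (Sum.inr false) (Sum.inl (-1)) := by
    have h4 : pX p * (pU p)⁻¹ * pX p * pU p = pX p * ((pU p)⁻¹ * pX p * pU p) := by group
    rw [h4, h1]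
    have h5 : swap (Sum.inr false) (Sum.inr true) * swap (Sum.inr false) (Sum.inl 0) *
        (swap (Sum.inr false) (Sum.inr true))⁻¹ =
        (swap (Sum.inr true) (Sum.inl 0) : Perm (ZMod p ⊕ Bool)) := by
      rw [← swap_apply_apply]
      simp [swap_apply_def]
    rw [swap_inv] at h5
    rw [← h5, pX]
    group
  have hne : (0 : ZMod p) ≠ -1 := by
    intro h
    have : (1 : ZMod p) = 0 := by linear_combination h
    exact one_ne_zero this
  have hcomm : Commute (swap (Sum.inr true) (Sum.inl 0) : Perm (ZMod p ⊕ Bool))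
      (swap (Sum.inr false) (Sum.inl (-1))) := by
    apply Disjoint.commute
    rw [disjoint_iff_eq_or_eq]
    intro x
    by_cases hx1 : x = Sum.inr true
    · right; subst hx1; exact swap_apply_of_ne_of_ne (by simp) (by simp)
    · by_cases hx2 : x = Sum.inl 0
      · right; subst hx2
        exact swap_apply_of_ne_of_ne (by simp) (by simp)
      · left; exact swap_apply_of_ne_of_ne hx1 hx2
  rw [h3, hcomm.mul_pow, pow_two, pow_two, swap_mul_self, swap_mul_self, one_mul]

theorem pX_zero : pX p (Sum.inl 0) = Sum.inr true := by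
  simp [pX]

theorem pX_false : pX p (Sum.inr false) = Sum.inl 0 := by
  simp [pX, swap_apply_of_ne_of_ne]

theorem pX_true : pX p (Sum.inr true) = Sum.inr false := by
  have : swap (Sum.inr false) (Sum.inl 0) (Sum.inr true) = (Sum.inr true : ZMod p ⊕ Bool) :=
    swap_apply_of_ne_of_ne (by simp) (by simp)
  simp [pX, this]

/-- every subgroup containing `pX` and `pU` contains the alternating group -/
theorem alt_le (K : Subgroup (Perm (ZMod p ⊕ Bool))) (hX : pX p ∈ K) (hU : pU p ∈ K) :
    alternatingGroup (ZMod p ⊕ Bool) ≤ K := by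
  have htrans0 : ∀ y : ZMod p ⊕ Bool, ∃ g : K, g • (Sum.inr false : ZMod p ⊕ Bool) = y := by
    intro y
    rcases y with i | b
    · refine ⟨⟨pU p ^ i.val * pX p, mul_mem (pow_mem hU _) hX⟩, ?_⟩
      change (pU p ^ i.val * pX p) (Sum.inr false) = Sum.inl i
      rw [Perm.mul_apply, pX_false, pU_pow_inl]
      simp
    · cases b
      · exact ⟨1, by simp⟩
      · refine ⟨⟨pX p * pX p, mul_mem hX hX⟩, ?_⟩
        change (pX p * pX p) (Sum.inr false) = Sum.inr true
        rw [Perm.mul_apply, pX_false, pX_zero]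
  have htrans : MulAction.IsPretransitive K (ZMod p ⊕ Bool) := by
    constructor
    intro x y
    obtain ⟨a, ha⟩ := htrans0 x
    obtain ⟨b, hb⟩ := htrans0 y
    refine ⟨b * a⁻¹, ?_⟩
    rw [mul_smul, ← ha, inv_smul_smul, hb]
  have hprim : MulAction.IsPreprimitive K (ZMod p ⊕ Bool) := by
    refine MulAction.IsPreprimitive.of_isTrivialBlock_base (Sum.inr false) ?_
    intro B haB hB
    have hblock : ∀ (k : K) (a : ZMod p ⊕ Bool), a ∈ B → k • a ∈ B → k • B = B := by
      intro k a ha hka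
      exact hB.smul_eq_of_mem ha hka
    by_cases hsub : B.Subsingleton
    · exact Or.inl hsub
    · right
      have hUB : (⟨pU p, hU⟩ : K) • B = B := hblock _ _ haB (by
        change pU p (Sum.inr false) ∈ B
        simpa using haB)
      have hUmem : ∀ n : ℕ, ∀ c ∈ B, (pU p ^ n) c ∈ B := by
        intro n
        induction n with
        | zero => intro c hc; simpa using hc
        | succ n ih =>
          intro c hc
          rw [pow_succ', Perm.mul_apply]
          have h1 : (⟨pU p, hU⟩ : K) • ((pU p ^ n) c) ∈ (⟨pU p, hU⟩ : K) • B :=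
            Set.smul_mem_smul_set (ih c hc)
          rw [hUB] at h1
          exact h1
      have hinl : ∀ i : ZMod p, Sum.inl i ∈ B → B = Set.univ := by
        intro i hi
        have hall : ∀ j : ZMod p, (Sum.inl j : ZMod p ⊕ Bool) ∈ B := by
          intro j
          have := hUmem (j - i).val _ hi
          rw [pU_pow_inl] at this
          simpa using this
        have hXB : (⟨pX p, hX⟩ : K) • B = B := hblock _ _ haB (by
          change pX p (Sum.inr false) ∈ B
          rw [pX_false]; exact hall 0)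
        have htrue : (Sum.inr true : ZMod p ⊕ Bool) ∈ B := by
          have h1 : (⟨pX p, hX⟩ : K) • (Sum.inl 0 : ZMod p ⊕ Bool) ∈ (⟨pX p, hX⟩ : K) • B :=
            Set.smul_mem_smul_set (hall 0)
          rw [hXB] at h1
          have e : (⟨pX p, hX⟩ : K) • (Sum.inl 0 : ZMod p ⊕ Bool) = Sum.inr true := pX_zero
          rwa [e] at h1
        ext x
        rcases x with j | b
        · simp [hall j]
        · cases b
          · simpa using haB
          · simpa using htrue
      rw [Set.not_subsingleton_iff] at hsub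
      obtain ⟨c, hc, hne⟩ := hsub.exists_ne (Sum.inr false)
      rcases c with i | b
      · exact hinl i hc
      · cases b
        · exact absurd rfl hne
        · have hXB : (⟨pX p, hX⟩ : K) • B = B := hblock _ _ hc (by
            change pX p (Sum.inr true) ∈ B
            rw [pX_true]; exact haB)
          have h1 : (⟨pX p, hX⟩ : K) • (Sum.inr false : ZMod p ⊕ Bool) ∈
              (⟨pX p, hX⟩ : K) • B := Set.smul_mem_smul_set haB
          rw [hXB] at h1
          have e : (⟨pX p, hX⟩ : K) • (Sum.inr false : ZMod p ⊕ Bool) = Sum.inl 0 := pX_false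
          rw [e] at h1
          exact hinl 0 h1
  exact alternatingGroup_le_of_isPreprimitive_of_isThreeCycle_mem hprim (pX_three (p := p)) hX

end Pool.Agent.Helper41.DZ
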