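import Pool.Agent.Helper41.DZ.Stage0
import Pool.Agent.Helper41.DZ.Perm
import Pool.Agent.Helper41.DZ.CompSeries

namespace Pool.Agent.Helper41.DZ

open Equiv Equiv.Perm

/-- first relator `g⁻³ u g³ u⁻ʳ` -/
def rel1 (r : ℕ) : FreeGroup Bool :=
  (FreeGroup.of false ^ 3)⁻¹ * FreeGroup.of true * FreeGroup.of false ^ 3 *
    (FreeGroup.of true ^ r)⁻¹

/-- second relator `(gᵏ u⁻¹ gᵏ u)² u⁻ᵖ` -/
def rel2 (k p : ℕ) : FreeGroup Bool :=
  (FreeGroup.of false ^ k * (FreeGroup.of true)⁻¹ * FreeGroup.of false ^ k * FreeGroup.of true) ^ 2 *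
    (FreeGroup.of true ^ p)⁻¹

theorem rel_ne {r k p : ℕ} (hk : 0 < k) : rel1 r ≠ rel2 k p := by
  intro h
  let f : FreeGroup Bool →* Multiplicative ℤ :=
    FreeGroup.lift (fun b => if b then 1 else Multiplicative.ofAdd 1)
  have h1 := congrArg f h
  have hf0 : f (FreeGroup.of false) = Multiplicative.ofAdd 1 := by simp [f]
  have hf1 : f (FreeGroup.of true) = 1 := by simp [f]
  have h2 : f (rel1 r) = 1 := by
    rw [rel1]
    simp only [map_mul, map_inv, map_pow, hf0, hf1, one_pow, inv_one, mul_one]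
    rw [inv_mul_cancel]
  have h3 : f (rel2 k p) = (Multiplicative.ofAdd (1 : ℤ)) ^ (4 * k) := by
    rw [rel2]
    simp only [map_mul, map_inv, map_pow, hf0, hf1, one_pow, inv_one, mul_one]
    rw [← pow_add, ← pow_mul]; congr 1; ring
  rw [h2, h3, ← ofAdd_nsmul] at h1
  have h4 : (4 * k) • (1 : ℤ) = 0 := (Multiplicative.ofAdd.injective h1).symm
  simp at h4
  omega

/-- the set of relators -/
noncomputable def rels (r k p : ℕ) : Finset (FreeGroup Bool) := by
  classical exact {rel1 r, rel2 k p}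

theorem rels_card {r k p : ℕ} (hk : 0 < k) : (rels r k p).card = 2 := by
  classical
  rw [rels]
  convert Finset.card_pair (rel_ne (r := r) (p := p) hk)

theorem mem_rels {r k p : ℕ} (w : FreeGroup Bool) :
    w ∈ (rels r k p : Set (FreeGroup Bool)) ↔ w = rel1 r ∨ w = rel2 k p := by
  classical
  simp [rels]

/-- existence of the exponent `r` -/
theorem exists_exponent {p : ℕ} [Fact p.Prime] (hp5 : 5 ≤ p) :
    ∃ (ρ : (ZMod p)ˣ) (s : ℕ), 0 < s ∧ (ρ : ZMod p) = ((s + 1 : ℕ) : ZMod p) ∧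
      (∀ c : ZMod p, c ≠ 0 → ∃ n : ℕ, ((s + 1 : ℕ) : ZMod p) ^ n = c) ∧
      Nat.Coprime (p - 4) s ∧ ∃ t q : ℕ, p * t = 1 + s * q := by
  have hprime : p.Prime := Fact.out
  obtain ⟨ρ, hρ⟩ := IsCyclic.exists_generator (α := (ZMod p)ˣ)
  have hgen : ∀ c : ZMod p, c ≠ 0 → ∃ n : ℕ, (ρ : ZMod p) ^ n = c := by
    intro c hc
    have h1 := hρ (Units.mk0 c hc)
    rw [← mem_powers_iff_mem_zpowers] at h1
    obtain ⟨n, hn⟩ := h1
    refine ⟨n, ?_⟩
    have := congrArg Units.val hn
    simpa using this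
  have hcop : Nat.Coprime p (p - 4) := by
    rw [Nat.Prime.coprime_iff_not_dvd hprime]
    intro h
    have := Nat.le_of_dvd (by omega) h
    omega
  obtain ⟨r, hr1, hr2⟩ := Nat.chineseRemainder hcop (ρ : ZMod p).val 2
  have hrρ : (r : ZMod p) = (ρ : ZMod p) := by
    rw [(ZMod.natCast_eq_natCast_iff r _ p).2 hr1]; simp
  have hρ1 : (ρ : ZMod p) ≠ 1 := by
    intro h
    obtain ⟨n, hn⟩ := hgen 2 (by
      intro h2
      have : ((2 : ℕ) : ZMod p) = 0 := by exact_mod_cast h2
      rw [ZMod.natCast_eq_zero_iff] at this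
      have := Nat.le_of_dvd (by norm_num) this
      omega)
    rw [h, one_pow] at hn
    have : (1 : ZMod p) = 0 := by linear_combination (-1 : ZMod p) * hn
    exact one_ne_zero this
  have hr0 : r ≠ 0 := by
    rintro rfl
    have : (ρ : ZMod p) = 0 := by rw [← hrρ]; simp
    exact ρ.ne_zero this
  have hr1' : r ≠ 1 := by
    rintro rfl
    exact hρ1 (by rw [← hrρ]; simp)
  obtain ⟨s, rfl⟩ : ∃ s, r = s + 1 := ⟨r - 1, by omega⟩
  have hs : 0 < s := by omega
  have hps : Nat.Coprime p s := by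
    rw [Nat.Prime.coprime_iff_not_dvd hprime]
    intro hdvd
    apply hρ1
    rw [← hrρ]
    push_cast
    rw [(ZMod.natCast_eq_zero_iff s p).2 hdvd]; simp
  refine ⟨ρ, s, hs, hrρ.symm, ?_, ?_, ?_⟩
  · intro c hc
    rw [hrρ]; exact hgen c hc
  · have h1 : s ≡ 1 [MOD (p - 4)] := Nat.ModEq.add_right_cancel' 1 hr2
    have h2 := h1.gcd_eq
    rw [Nat.coprime_comm, Nat.Coprime, h2]; simp
  · by_cases hs1 : s = 1
    · exact ⟨1, p - 1, by subst hs1; omega⟩
    · obtain ⟨t, -, ht⟩ := Nat.exists_mul_mod_eq_one_of_coprime hps (by omega)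
      refine ⟨t, p * t / s, ?_⟩
      have := Nat.mod_add_div (p * t) s
      omega

theorem main (p : ℕ) (hprime : p.Prime) (h3 : p % 3 = 2) (hp5 : 5 ≤ p) :
    ∃ (G : Type) (_ : Group G), Finite G ∧ DeficiencyZero G ∧
      IsCompositionFactor (alternatingGroup (Fin (p + 2))) G := by
  have : Fact p.Prime := ⟨hprime⟩
  obtain ⟨m, hm⟩ : ∃ m, p = 3 * m + 2 := ⟨p / 3, by omega⟩
  obtain ⟨ρ, s, hs, hρ, hr, hcop, t, q, hq⟩ := exists_exponent (p := p) hp5
  have hr0 : ((s + 1 : ℕ) : ZMod p) ≠ 0 := by rw [← hρ]; exact ρ.ne_zero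
  let R := rels (s + 1) (3 * m + 1) p
  let G := PresentedGroup (R : Set (FreeGroup Bool))
  let g : G := PresentedGroup.of false
  let u : G := PresentedGroup.of true
  have hmk : ∀ b : Bool, PresentedGroup.mk (R : Set (FreeGroup Bool)) (FreeGroup.of b) =
    PresentedGroup.of b := fun b => rfl
  have hA : (g ^ 3)⁻¹ * u * g ^ 3 = u ^ (s + 1) := by
    have h1 : PresentedGroup.mk (R : Set (FreeGroup Bool)) (rel1 (s + 1)) = 1 :=
      PresentedGroup.one_of_mem ((mem_rels _).2 (Or.inl rfl))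
    rw [rel1] at h1
    simp only [map_mul, map_inv, map_pow, hmk] at h1
    exact mul_inv_eq_one.1 h1
  have hB : (g ^ (3 * m + 1) * u⁻¹ * g ^ (3 * m + 1) * u) ^ 2 = u ^ p := by
    have h1 : PresentedGroup.mk (R : Set (FreeGroup Bool)) (rel2 (3 * m + 1) p) = 1 :=
      PresentedGroup.one_of_mem ((mem_rels _).2 (Or.inr rfl))
    rw [rel2] at h1
    simp only [map_mul, map_inv, map_pow, hmk] at h1
    exact mul_inv_eq_one.1 h1
  have hgen : Subgroup.closure {g, u} = (⊤ : Subgroup G) := by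
    rw [← PresentedGroup.closure_range_of (R : Set (FreeGroup Bool))]
    congr 1
    ext x
    constructor
    · rintro (rfl | rfl)
      · exact ⟨false, rfl⟩
      · exact ⟨true, rfl⟩
    · rintro ⟨b, rfl⟩
      cases b
      · exact Or.inl rfl
      · exact Or.inr rfl
  obtain ⟨n, hn⟩ := hr (-1) (by simp)
  have hn' : p ∣ (s + 1) ^ n + 1 := by
    rw [← ZMod.natCast_eq_zero_iff]
    push_cast
    push_cast at hn
    rw [hn]; ring
  have hfin : Finite G := stage0 hm (by omega) hgen hr0 hr hs hA hB hq hcop hn'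
  -- the permutation representation
  have hρk : ρ ^ (3 * m + 1) = 1 := by
    have := ZMod.units_pow_card_sub_one_eq_one p ρ
    rwa [show p - 1 = 3 * m + 1 by omega] at this
  have hHk := pH_pow ρ hρk
  have hc := pXH (p := p) ρ
  let gp : Perm (ZMod p ⊕ Bool) := pX p * pH ρ ^ (2 * m + 1)
  have hgp3 : gp ^ 3 = pH ρ := by
    simp only [gp]
    rw [(hc.pow_right _).mul_pow, pX_pow, one_mul, ← pow_mul,
      show (2 * m + 1) * 3 = 2 * (3 * m + 1) + 1 by ring, pow_add, pow_one, mul_comm 2, pow_mul,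
      hHk, one_pow, one_mul]
  have hgpk : gp ^ (3 * m + 1) = pX p := by
    simp only [gp]
    rw [(hc.pow_right _).mul_pow, ← pow_mul, mul_comm (2 * m + 1), pow_mul, hHk, one_pow, mul_one,
      pow_add, pow_mul, pX_pow, one_pow, one_mul, pow_one]
  let fgen : Bool → Perm (ZMod p ⊕ Bool) := fun b => if b then pU p else gp
  have hrels : ∀ w ∈ (R : Set (FreeGroup Bool)), FreeGroup.lift fgen w = 1 := by
    intro w hw
    rcases (mem_rels w).1 hw with rfl | rfl
    · rw [rel1]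
      simp only [map_mul, map_inv, map_pow, FreeGroup.lift_apply_of]
      simp only [fgen, Bool.false_eq_true, if_false, if_true]
      rw [hgp3, pA ρ hρ, mul_inv_cancel]
    · rw [rel2]
      simp only [map_mul, map_inv, map_pow, FreeGroup.lift_apply_of]
      simp only [fgen, Bool.false_eq_true, if_false, if_true]
      rw [hgpk, pB, pU_pow_p, inv_one, one_mul]
  let φ : G →* Perm (ZMod p ⊕ Bool) := PresentedGroup.toGroup hrels
  have hφg : φ g = gp := PresentedGroup.toGroup.of hrels (x := false)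
  have hφu : φ u = pU p := PresentedGroup.toGroup.of hrels (x := true)
  have halt : alternatingGroup (ZMod p ⊕ Bool) ≤ φ.range := by
    apply alt_le
    · exact ⟨g ^ (3 * m + 1), by rw [map_pow, hφg, hgpk]⟩
    · exact ⟨u, hφu⟩
  have hcard : Fintype.card (ZMod p ⊕ Bool) = p + 2 := by
    rw [Fintype.card_sum, ZMod.card, Fintype.card_bool]
  let e : ZMod p ⊕ Bool ≃ Fin (p + 2) := Fintype.equivFinOfCardEq hcard
  let L : Subgroup G := (alternatingGroup (ZMod p ⊕ Bool)).comap φ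
  let f : L →* alternatingGroup (Fin (p + 2)) :=
    (Equiv.altCongrHom e).toMonoidHom.comp
      ((φ.comp L.subtype).codRestrict (alternatingGroup (ZMod p ⊕ Bool)) (fun x => x.2))
  have hf : Function.Surjective f := by
    apply (Equiv.altCongrHom e).surjective.comp
    rintro ⟨σ, hσ⟩
    obtain ⟨a, ha⟩ := halt hσ
    refine ⟨⟨a, ?_⟩, Subtype.ext ha⟩
    change φ a ∈ alternatingGroup (ZMod p ⊕ Bool)
    rw [ha]; exact hσ
  have hsimple : IsSimpleGroup (alternatingGroup (Fin (p + 2))) :=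
    alternatingGroup.isSimpleGroup (by simp; omega)
  refine ⟨G, inferInstance, hfin, ?_, ?_⟩
  · exact ⟨Bool, inferInstance, R, by rw [rels_card (by omega)]; rfl, ⟨MulEquiv.refl _⟩⟩
  · exact factor_of_section _ hsimple (Nat.card G) G rfl L inferInstance f hf

end Pool.Agent.Helper41.DZ
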