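import Mathlib

/-! Generalities: finiteness by extension, commutation lemmas. -/

namespace Pool.Agent.Helper41.DZ

open Subgroup

variable {G : Type*} [Group G]

theorem finite_of_normal_quot (N : Subgroup G) [Finite N] [Finite (G ⧸ N)] : Finite G :=
  Finite.of_equiv _ (Subgroup.groupEquivQuotientProdSubgroup (s := N)).symm

theorem commute_of_pow_pow {a b : G} {m n : ℕ} (hm : Commute a (b ^ m)) (hn : Commute a (b ^ n))
    (h : Nat.Coprime m n) : Commute a b := by
  have hb : b = (b ^ m) ^ (Nat.gcdA m n) * (b ^ n) ^ (Nat.gcdB m n) := by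
    have := Nat.gcd_eq_gcd_ab m n
    rw [Nat.Coprime] at h
    rw [h] at this
    rw [← zpow_natCast b m, ← zpow_natCast b n, ← zpow_mul, ← zpow_mul, ← zpow_add, ← this]
    simp
  rw [hb]
  exact (hm.zpow_right _).mul_right (hn.zpow_right _)

theorem commute_of_pow_pow_one {a b : G} {m n : ℕ} (hm : Commute a (b ^ m)) (hn : b ^ n = 1)
    (h : Nat.Coprime m n) : Commute a b :=
  commute_of_pow_pow hm (by rw [hn]; exact Commute.one_right a) h

/-- conjugation of commuting pairs -/
theorem commute_conj_inv {a b : G} (h : Commute a b) (c : G) :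
    Commute (c⁻¹ * a * c) (c⁻¹ * b * c) := by
  have := h.map (MulAut.conj c⁻¹).toMonoidHom
  simpa using this

theorem commute_conj {a b : G} (h : Commute a b) (c : G) :
    Commute (c * a * c⁻¹) (c * b * c⁻¹) := by
  have := h.map (MulAut.conj c).toMonoidHom
  simpa using this

theorem conj_inv_pow (c a : G) (n : ℕ) : c⁻¹ * a ^ n * c = (c⁻¹ * a * c) ^ n := by
  have := map_pow (MulAut.conj c⁻¹).toMonoidHom a n
  simpa using this

theorem conj_pow' (c a : G) (n : ℕ) : c * a ^ n * c⁻¹ = (c * a * c⁻¹) ^ n := by
  simp

/-- a subgroup is everything if it contains the generators -/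
theorem central_of_commute {a g u : G} (hgen : closure {g, u} = (⊤ : Subgroup G))
    (hg : Commute a g) (hu : Commute a u) : ∀ b, Commute a b := by
  intro b
  have : b ∈ closure {g, u} := by rw [hgen]; trivial
  induction this using Subgroup.closure_induction with
  | mem x hx =>
    rcases hx with rfl | rfl
    · exact hg
    · exact hu
  | one => exact Commute.one_right a
  | mul x y _ _ hx hy => exact hx.mul_right hy
  | inv x _ hx => exact hx.inv_right

theorem zpowers_normal_of_central {a : G} (h : ∀ b, Commute a b) : (zpowers a).Normal := by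
  constructor
  intro n hn g
  obtain ⟨k, rfl⟩ := mem_zpowers_iff.1 hn
  have : Commute (a ^ k) g := (h g).zpow_left k
  rw [← this.eq]
  simp

theorem mem_normalizer_of_conj {N : Subgroup G} [Finite N] {s : G}
    (h : ∀ n ∈ N, s⁻¹ * n * s ∈ N) : s ∈ Subgroup.normalizer (N : Set G) := by
  rw [Subgroup.mem_normalizer_iff]
  intro n
  constructor
  · intro hn
    let f : N → N := fun n => ⟨s⁻¹ * n * s, h n n.2⟩
    have finj : Function.Injective f := by
      intro a b hab
      have := congrArg Subtype.val hab
      simp only [f] at this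
      have := mul_right_cancel this
      have := mul_left_cancel this
      exact Subtype.ext this
    have fsurj := Finite.surjective_of_injective finj
    obtain ⟨⟨m, hm⟩, hm'⟩ := fsurj ⟨n, hn⟩
    have : s⁻¹ * m * s = n := congrArg Subtype.val hm'
    rw [← this]
    simpa [mul_assoc] using hm
  · intro hn
    have := h _ hn
    simpa [mul_assoc] using this

theorem normal_of_gens {N : Subgroup G} {S : Set G}
    (hgen : closure S = (⊤ : Subgroup G)) (h : ∀ s ∈ S, s ∈ Subgroup.normalizer (N : Set G)) : N.Normal := by
  rw [← Subgroup.normalizer_eq_top_iff, eq_top_iff, ← hgen, Subgroup.closure_le]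
  exact h

theorem closure_quot (N : Subgroup G) [N.Normal] {g u : G}
    (hgen : closure {g, u} = (⊤ : Subgroup G)) :
    closure {(QuotientGroup.mk g : G ⧸ N), (QuotientGroup.mk u : G ⧸ N)} = ⊤ := by
  have h := congrArg (Subgroup.map (QuotientGroup.mk' N)) hgen
  rw [MonoidHom.map_closure, Set.image_pair,
    Subgroup.map_top_of_surjective _ (QuotientGroup.mk'_surjective N)] at h
  exact h

theorem finite_zpowers_of_pow_eq_one {a : G} {n : ℕ} (hn : 0 < n) (h : a ^ n = 1) :
    Finite (zpowers a) := by
  have : IsOfFinOrder a := isOfFinOrder_iff_pow_eq_one.2 ⟨n, hn, h⟩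
  exact this.finite_zpowers

theorem finite_of_gen_one {g u : G} (hgen : closure {g, u} = (⊤ : Subgroup G)) (hu : u = 1)
    {n : ℕ} (hn : 0 < n) (hg : g ^ n = 1) : Finite G := by
  have h : zpowers g = (⊤ : Subgroup G) := by
    rw [eq_top_iff, ← hgen, closure_le]
    rintro a (rfl | rfl)
    · exact mem_zpowers a
    · rw [hu]; exact (zpowers g).one_mem
  have := finite_zpowers_of_pow_eq_one hn hg
  rw [h] at this
  exact Finite.of_equiv _ (Subgroup.topEquiv (G := G)).toEquiv

end Pool.Agent.Helper41.DZ
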