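import Pool.Agent.Helper41.DZ.Basic

/-! The group generated by letters `x i` with `x i ^ 3 = 1`, `(x i * x j) ^ 2 = 1` is finite. -/

namespace Pool.Agent.Helper41.DZ

open Subgroup

variable {G : Type*} [Group G]

theorem pair_rel1 {y x : G} (h2 : (y * x) ^ 2 = 1) : y * x = x⁻¹ * y⁻¹ := by
  rw [pow_two] at h2
  have := eq_inv_of_mul_eq_one_left h2
  rw [this]; simp

theorem cube_inv {x : G} (h3 : x ^ 3 = 1) : x⁻¹ = x * x := by
  rw [inv_eq_iff_mul_eq_one]
  rw [← h3]; simp [pow_succ, mul_assoc]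

theorem pair_rel2 {y x : G} (hx : x ^ 3 = 1) (h2 : (y * x) ^ 2 = 1) :
    y * x⁻¹ = x⁻¹ * (y⁻¹ * x) := by
  have h1 := pair_rel1 h2
  calc y * x⁻¹ = (y * x) * x := by rw [cube_inv hx]; group
    _ = x⁻¹ * (y⁻¹ * x) := by rw [h1]; group

theorem pair_rel3 {y x : G} (h2 : (y * x) ^ 2 = 1) :
    y⁻¹ * x⁻¹ = x * y := by
  have h1 := pair_rel1 h2
  have : y⁻¹ = x * y * x := by
    rw [mul_assoc, h1]; group
  rw [this]; group

theorem pair_rel4 {y x : G} (hx : x ^ 3 = 1) (hy : y ^ 3 = 1) (h2 : (y * x) ^ 2 = 1) :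
    y⁻¹ * x * y = x⁻¹ * (y⁻¹ * x) := by
  rw [← pair_rel2 hx h2]
  have h3 := pair_rel3 h2
  -- y⁻¹ x y = y y x y ; y x y = x⁻¹
  have h4 : y * x * y = x⁻¹ := by
    rw [pair_rel1 h2]; group
  calc y⁻¹ * x * y = y * (y * x * y) := by rw [cube_inv hy]; group
    _ = y * x⁻¹ := by rw [h4]

theorem carmichael_step {ι : Type*} [DecidableEq ι] (x : ι → G) (h3 : ∀ i, x i ^ 3 = 1)
    (h2 : ∀ i j, i ≠ j → (x i * x j) ^ 2 = 1) (s : Finset ι) (n : ι) (hn : n ∉ s)
    (hfin : Finite (closure (x '' (s : Set ι)))) :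
    Finite (closure (x '' ((insert n s : Finset ι) : Set ι))) := by
  set H := closure (x '' (s : Set ι)) with hH
  set T : Set G := {1, x n, (x n)⁻¹} ∪ (fun j => (x n)⁻¹ * x j) '' (s : Set ι) with hT
  have hTfin : T.Finite := by
    rw [hT]
    apply Set.Finite.union
    · simp
    · exact (Finset.finite_toSet s).image _
  have hHfin : (H : Set G).Finite := Set.toFinite _
  have hSfin : (Set.image2 (fun h t => h * t) (H : Set G) T).Finite := hHfin.image2 _ hTfin
  have hxH : ∀ j ∈ s, x j ∈ H := fun j hj => subset_closure ⟨j, hj, rfl⟩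
  have hne : ∀ j ∈ s, n ≠ j := fun j hj h => hn (h ▸ hj)
  have key : ∀ t ∈ T, ∀ b ∈ x '' ((insert n s : Finset ι) : Set ι),
      ∃ h' ∈ H, ∃ t' ∈ T, h' * t' = t * b := by
    intro t ht b hb
    obtain ⟨i, hi, rfl⟩ := hb
    have hi' : i = n ∨ i ∈ s := by simpa using hi
    rcases ht with ht | ⟨j, hj, rfl⟩
    · rcases ht with rfl | rfl | rfl
      · rcases hi' with rfl | hi'
        · exact ⟨1, H.one_mem, x i, by simp [hT], by simp⟩
        · exact ⟨x i, hxH i hi', 1, by simp [hT], by simp⟩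
      · rcases hi' with rfl | hi'
        · refine ⟨1, H.one_mem, (x i)⁻¹, by simp [hT], ?_⟩
          rw [cube_inv (h3 i)]; simp
        · exact ⟨(x i)⁻¹, H.inv_mem (hxH i hi'), (x n)⁻¹, by simp [hT],
            (pair_rel1 (h2 n i (hne i hi'))).symm⟩
      · rcases hi' with rfl | hi'
        · exact ⟨1, H.one_mem, 1, by simp [hT], by simp⟩
        · exact ⟨1, H.one_mem, (x n)⁻¹ * x i, Or.inr ⟨i, hi', rfl⟩, by simp⟩
    · have hj' : j ∈ s := hj
      rcases hi' with rfl | hi'
      · refine ⟨(x j)⁻¹, H.inv_mem (hxH j hj'), (x i)⁻¹ * x j, Or.inr ⟨j, hj', rfl⟩, ?_⟩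
        exact (pair_rel4 (h3 j) (h3 i) (h2 i j (hne j hj'))).symm
      · by_cases hij : i = j
        · subst hij
          refine ⟨x i, hxH i hi', x n, by simp [hT], ?_⟩
          rw [← pair_rel3 (h2 n i (hne i hi')), cube_inv (h3 i)]
          simp [mul_assoc]
        · refine ⟨x i * (x j)⁻¹, H.mul_mem (hxH i hi') (H.inv_mem (hxH j hj')),
            (x n)⁻¹ * x j, Or.inr ⟨j, hj', rfl⟩, ?_⟩
          have e1 := pair_rel1 (h2 j i (Ne.symm hij))
          have e2 := pair_rel3 (h2 n i (hne i hi'))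
          have e3 := pair_rel2 (h3 j) (h2 n j (hne j hj'))
          calc x i * (x j)⁻¹ * ((x n)⁻¹ * x j) = x i * ((x j)⁻¹ * ((x n)⁻¹ * x j)) := by group
            _ = x i * (x n * (x j)⁻¹) := by rw [e3]
            _ = (x i * x n) * (x j)⁻¹ := by group
            _ = ((x n)⁻¹ * (x i)⁻¹) * (x j)⁻¹ := by rw [e2]
            _ = (x n)⁻¹ * ((x i)⁻¹ * (x j)⁻¹) := by group
            _ = (x n)⁻¹ * x j * x i := by rw [← e1]; group
  have hsub : ((closure (x '' ((insert n s : Finset ι) : Set ι)) : Subgroup G) : Set G) ⊆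
      Set.image2 (fun h t => h * t) (H : Set G) T := by
    intro g hg
    have step : ∀ a ∈ Set.image2 (fun h t => h * t) (H : Set G) T,
        ∀ b ∈ x '' ((insert n s : Finset ι) : Set ι),
        a * b ∈ Set.image2 (fun h t => h * t) (H : Set G) T := by
      rintro a ⟨h, hh, t, ht, rfl⟩ b hb
      obtain ⟨h', hh', t', ht', e⟩ := key t ht b hb
      refine ⟨h * h', H.mul_mem hh hh', t', ht', ?_⟩
      simp only [mul_assoc]
      rw [e]
    induction hg using Subgroup.closure_induction_right with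
    | one => exact ⟨1, H.one_mem, 1, by simp [hT], by simp⟩
    | mul_right a _ b hb ih => exact step a ih b hb
    | mul_inv_cancel a _ b hb ih =>
      have hb3 : b⁻¹ = b * b := by
        obtain ⟨i, _, rfl⟩ := hb
        exact cube_inv (h3 i)
      rw [hb3, ← mul_assoc]
      exact step _ (step a ih b hb) b hb
  exact (hSfin.subset hsub).to_subtype

theorem carmichael_finite {ι : Type*} [Finite ι] (x : ι → G) (h3 : ∀ i, x i ^ 3 = 1)
    (h2 : ∀ i j, i ≠ j → (x i * x j) ^ 2 = 1) : Finite (closure (Set.range x)) := by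
  classical
  have := Fintype.ofFinite ι
  have : ∀ s : Finset ι, Finite (closure (x '' (s : Set ι))) := by
    intro s
    induction s using Finset.induction_on with
    | empty => rw [Finset.coe_empty, Set.image_empty, Subgroup.closure_empty]; infer_instance
    | insert n s hn ih => exact carmichael_step x h3 h2 s n hn ih
  have h := this Finset.univ
  simpa using h

end Pool.Agent.Helper41.DZ
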