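import Pool.Agent.Helper41.DZ.Stage1

namespace Pool.Agent.Helper41.DZ

open Subgroup

theorem stage1 {G : Type*} [Group G] {m p s t q n : ℕ} [Fact p.Prime] {g u : G}
    (hp : p = 3 * m + 2) (hp4 : 4 ≤ p)
    (hgen : closure {g, u} = (⊤ : Subgroup G))
    (hr0 : ((s + 1 : ℕ) : ZMod p) ≠ 0)
    (hr : ∀ c : ZMod p, c ≠ 0 → ∃ n : ℕ, ((s + 1 : ℕ) : ZMod p) ^ n = c)
    (hs : 0 < s)
    (hA : (g ^ 3)⁻¹ * u * g ^ 3 = u ^ (s + 1))
    (hB : (g ^ (3 * m + 1) * u⁻¹ * g ^ (3 * m + 1) * u) ^ 2 = u ^ p)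
    (hz : (u ^ p) ^ s = 1)
    (hq : p * t = 1 + s * q)
    (hcop : Nat.Coprime (p - 4) s)
    (hn : p ∣ (s + 1) ^ n + 1) : Finite G := by
  have hxh : Commute (g ^ (3 * m + 1)) (g ^ 3) := (Commute.refl g).pow_pow _ _
  obtain ⟨hzx, hzh⟩ := core hp4 hxh hA hB hz hq hcop hn
  have hgxh : g = g ^ (3 * m + 1) * ((g ^ 3) ^ m)⁻¹ := by
    rw [← pow_mul, pow_add, pow_one]
    have : g ^ (3 * m) * g = g * g ^ (3 * m) := ((Commute.refl g).pow_left _).eq
    rw [this]; group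
  have hzg : Commute (u ^ p) g := by
    have := hzx.mul_right (hzh.pow_right m).inv_right
    rwa [← hgxh] at this
  have hcent := central_of_commute hgen hzg ((Commute.refl u).pow_left p)
  have hfin : Finite (zpowers (u ^ p)) := finite_zpowers_of_pow_eq_one hs hz
  have hnor : (zpowers (u ^ p)).Normal := zpowers_normal_of_central hcent
  have hup : (QuotientGroup.mk (u ^ p) : G ⧸ zpowers (u ^ p)) = 1 :=
    (QuotientGroup.eq_one_iff _).2 (mem_zpowers _)
  have hQ : Finite (G ⧸ zpowers (u ^ p)) := by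
    refine stage2 (m := m) (p := p) (r := s + 1) hp (closure_quot _ hgen) hr0 hr ?_ ?_ ?_
    · have := congrArg (QuotientGroup.mk' (zpowers (u ^ p))) hA
      simpa using this
    · rw [← QuotientGroup.mk_pow]; exact hup
    · have := congrArg (QuotientGroup.mk' (zpowers (u ^ p))) hB
      rw [QuotientGroup.mk'_apply, QuotientGroup.mk'_apply, hup] at this
      simpa using this
  exact finite_of_normal_quot (zpowers (u ^ p))

theorem stage0 {G : Type*} [Group G] {m p s t q n : ℕ} [Fact p.Prime] {g u : G}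
    (hp : p = 3 * m + 2) (hp4 : 4 ≤ p)
    (hgen : closure {g, u} = (⊤ : Subgroup G))
    (hr0 : ((s + 1 : ℕ) : ZMod p) ≠ 0)
    (hr : ∀ c : ZMod p, c ≠ 0 → ∃ n : ℕ, ((s + 1 : ℕ) : ZMod p) ^ n = c)
    (hs : 0 < s)
    (hA : (g ^ 3)⁻¹ * u * g ^ 3 = u ^ (s + 1))
    (hB : (g ^ (3 * m + 1) * u⁻¹ * g ^ (3 * m + 1) * u) ^ 2 = u ^ p)
    (hq : p * t = 1 + s * q)
    (hcop : Nat.Coprime (p - 4) s)
    (hn : p ∣ (s + 1) ^ n + 1) : Finite G := by
  obtain ⟨x, hx⟩ : ∃ x, x = g ^ (3 * m + 1) := ⟨_, rfl⟩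
  obtain ⟨h, hh⟩ : ∃ h, h = g ^ 3 := ⟨_, rfl⟩
  obtain ⟨l, hl⟩ : ∃ l, l = (u ^ p) ^ ((s + 1) * s) := ⟨_, rfl⟩
  have hxh : Commute x h := by rw [hx, hh]; exact (Commute.refl g).pow_pow _ _
  have hA' : h⁻¹ * u * h = u ^ (s + 1) := by rw [hh]; exact hA
  have hB' : (x * u⁻¹ * x * u) ^ 2 = u ^ p := by rw [hx]; exact hB
  obtain ⟨hw, hc1, hc2⟩ := comm_facts hxh hA' hB'
  have hlu : Commute l u := by rw [hl]; exact ((Commute.refl u).pow_left p).pow_left _
  have hlw : Commute l (x * u⁻¹ * x) := by rw [hl]; exact hw.pow_left _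
  have hl1 : l = ((u ^ p) ^ (s + 1)) ^ s := by rw [hl, pow_mul]
  have hl2 : l = ((u ^ p) ^ s) ^ (s + 1) := by rw [hl, mul_comm, pow_mul]
  have hlxs : Commute l ((x * u * x⁻¹) ^ s) := by
    rw [hl1, ← conj_pow']
    exact hc2.pow_left s
  -- l commutes with x ζ^s x⁻¹
  have h3 : Commute l (x * (u ^ p) ^ s * x⁻¹) := by
    have h1 : x * (u ^ p) ^ s * x⁻¹ = (x * u ^ s * x⁻¹) ^ p := by
      rw [← conj_pow', ← pow_mul, ← pow_mul, mul_comm]
    rw [h1, hl1]
    exact (hc2.pow_left s).pow_right p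
  -- l commutes with x ζ^r x⁻¹
  have h4 : Commute l (x * (u ^ p) ^ (s + 1) * x⁻¹) := by
    have h1 : Commute ((u ^ p) ^ (s + 1)) (x⁻¹ * (u ^ p) ^ s * x) := by
      have h2 : x⁻¹ * (u ^ p) ^ s * x = (x⁻¹ * u ^ s * x) ^ p := by
        rw [← conj_inv_pow, ← pow_mul, ← pow_mul, mul_comm]
      rw [h2]; exact hc1.pow_right p
    have h2 := commute_conj h1 x
    have e : x * (x⁻¹ * (u ^ p) ^ s * x) * x⁻¹ = (u ^ p) ^ s := by group
    rw [e] at h2
    rw [hl2]
    exact (h2.symm).pow_left _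
  have h5 : Commute l ((x * u * x⁻¹) ^ p) := by
    have h6 := h4.mul_right h3.inv_right
    have e : x * (u ^ p) ^ (s + 1) * x⁻¹ * (x * (u ^ p) ^ s * x⁻¹)⁻¹ = (x * u * x⁻¹) ^ p := by
      rw [← conj_pow', pow_succ' (u ^ p) s]; group
    rwa [e] at h6
  have hps : Nat.Coprime p s := by
    rw [Nat.Prime.coprime_iff_not_dvd (Fact.out : p.Prime)]
    intro hdvd
    have h1 : ((s + 1 : ℕ) : ZMod p) = 1 := by
      push_cast
      rw [(ZMod.natCast_eq_zero_iff s p).2 hdvd]; simp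
    obtain ⟨n', hn'⟩ := hr 2 (by
      intro h2
      have : ((2 : ℕ) : ZMod p) = 0 := by exact_mod_cast h2
      rw [ZMod.natCast_eq_zero_iff] at this
      have := Nat.le_of_dvd (by norm_num) this
      omega)
    rw [h1, one_pow] at hn'
    have : ((1 : ℕ) : ZMod p) = 0 := by
      push_cast
      linear_combination (-1 : ZMod p) * hn'
    rw [ZMod.natCast_eq_zero_iff] at this
    have := Nat.le_of_dvd (by norm_num) this
    omega
  have h6 : Commute l (x * u * x⁻¹) := commute_of_pow_pow h5 hlxs hps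
  have hlx2 : Commute l (x * x) := by
    have h7 := h6.mul_right hlw
    have e : x * u * x⁻¹ * (x * u⁻¹ * x) = x * x := by group
    rwa [e] at h7
  have hlh6 : Commute l (h ^ (2 * (3 * m + 1))) := by
    have e : h ^ (2 * (3 * m + 1)) = (x * x) ^ 3 := by
      rw [hh, hx, ← pow_add, ← pow_mul, ← pow_mul]; congr 1; ring
    rw [e]; exact hlx2.pow_right 3
  have hlconj : ∀ j : ℕ, (h ^ j)⁻¹ * l * h ^ j = l ^ ((s + 1) ^ j) := by
    intro j
    induction j with
    | zero => simp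
    | succ j ih =>
      have h1 : h⁻¹ * l * h = l ^ (s + 1) := by
        rw [hl, ← pow_mul, conj_inv_pow, hA', ← pow_mul, ← pow_mul]; congr 1; ring
      calc (h ^ (j + 1))⁻¹ * l * h ^ (j + 1) = h⁻¹ * ((h ^ j)⁻¹ * l * h ^ j) * h := by
            rw [pow_succ]; group
        _ = h⁻¹ * l ^ ((s + 1) ^ j) * h := by rw [ih]
        _ = (h⁻¹ * l * h) ^ ((s + 1) ^ j) := conj_inv_pow h l _
        _ = l ^ ((s + 1) ^ (j + 1)) := by rw [h1, ← pow_mul]; congr 1; ring
  have hbig : 1 < (s + 1) ^ (2 * (3 * m + 1)) := Nat.one_lt_pow (by omega) (by omega)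
  have hlord : l ^ ((s + 1) ^ (2 * (3 * m + 1)) - 1) = 1 := by
    have h1 := hlconj (2 * (3 * m + 1))
    rw [mul_assoc, hlh6.eq, inv_mul_cancel_left] at h1
    have h2 : l ^ ((s + 1) ^ (2 * (3 * m + 1)) - 1) * l = 1 * l := by
      rw [← pow_succ, Nat.sub_add_cancel hbig.le, ← h1, one_mul]
    exact mul_right_cancel h2
  have hfin : Finite (zpowers l) := finite_zpowers_of_pow_eq_one (by omega) hlord
  have hconjN : ∀ a : G, (a⁻¹ * l * a ∈ zpowers l) →
      a ∈ Subgroup.normalizer (zpowers l : Set G) := by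
    intro a ha
    apply mem_normalizer_of_conj
    intro n hn
    have hle : zpowers l ≤ (zpowers l).comap (MulAut.conj a⁻¹).toMonoidHom := by
      rw [zpowers_le]
      simp only [Subgroup.mem_comap]
      simpa using ha
    have := hle hn
    simpa using this
  have hunorm := hconjN u (by rw [mul_assoc, hlu.eq]; simp)
  have hhnorm := hconjN h (by
    have := hlconj 1
    rw [pow_one, pow_one] at this
    rw [this]; exact pow_mem (mem_zpowers l) _)
  have hx2norm := hconjN (x * x) (by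
    rw [mul_assoc, hlx2.eq, inv_mul_cancel_left]; exact mem_zpowers l)
  have hgexp : g = h * (x * x * (h ^ (2 * m))⁻¹)⁻¹ := by
    have e1 : x * x = g ^ 2 * h ^ (2 * m) := by
      rw [hx, hh, ← pow_add, ← pow_mul, ← pow_add]; congr 1; ring
    rw [e1, hh]; group
  have hgnorm : g ∈ Subgroup.normalizer (zpowers l : Set G) := by
    rw [hgexp]
    exact mul_mem hhnorm (inv_mem (mul_mem hx2norm (inv_mem (pow_mem hhnorm _))))
  have hnor : (zpowers l).Normal := normal_of_gens hgen (by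
    rintro a (rfl | rfl)
    · exact hgnorm
    · exact hunorm)
  have hlq : (QuotientGroup.mk l : G ⧸ zpowers l) = 1 :=
    (QuotientGroup.eq_one_iff _).2 (mem_zpowers _)
  have hAQ : ((QuotientGroup.mk g : G ⧸ zpowers l) ^ 3)⁻¹ * QuotientGroup.mk u *
      (QuotientGroup.mk g : G ⧸ zpowers l) ^ 3 = (QuotientGroup.mk u : G ⧸ zpowers l) ^ (s + 1) := by
    have := congrArg (QuotientGroup.mk' (zpowers l)) hA
    simpa using this
  have hzQ : ((QuotientGroup.mk u : G ⧸ zpowers l) ^ p) ^ ((s + 1) * s) = 1 := by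
    rw [← QuotientGroup.mk_pow, ← QuotientGroup.mk_pow, ← hl]; exact hlq
  have hzQ' : ((QuotientGroup.mk u : G ⧸ zpowers l) ^ p) ^ s = 1 := by
    set g' := (QuotientGroup.mk g : G ⧸ zpowers l)
    set u' := (QuotientGroup.mk u : G ⧸ zpowers l)
    have h1 : (g' ^ 3)⁻¹ * ((u' ^ p) ^ s) * g' ^ 3 = 1 := by
      rw [conj_inv_pow, conj_inv_pow, hAQ, ← hzQ, ← pow_mul, ← pow_mul, ← pow_mul]
      congr 1; ring
    calc (u' ^ p) ^ s = g' ^ 3 * ((g' ^ 3)⁻¹ * ((u' ^ p) ^ s) * g' ^ 3) * (g' ^ 3)⁻¹ := by group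
      _ = 1 := by rw [h1]; group
  have hQ : Finite (G ⧸ zpowers l) := by
    refine stage1 (m := m) (p := p) (s := s) (t := t) (q := q) (n := n) hp hp4
      (closure_quot _ hgen) hr0 hr hs hAQ ?_ hzQ' hq hcop hn
    have := congrArg (QuotientGroup.mk' (zpowers l)) hB
    simpa using this
  exact finite_of_normal_quot (zpowers l)

end Pool.Agent.Helper41.DZ
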