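import Pool.Agent.Helper41.DZ.Stage2

namespace Pool.Agent.Helper41.DZ

open Subgroup

/-- common consequences of the two relations -/
theorem comm_facts {G : Type*} [Group G] {x h u : G} {p s : ℕ}
    (hxh : Commute x h)
    (hA : h⁻¹ * u * h = u ^ (s + 1))
    (hB : (x * u⁻¹ * x * u) ^ 2 = u ^ p) :
    Commute (u ^ p) (x * u⁻¹ * x) ∧
    Commute ((u ^ p) ^ (s + 1)) (x⁻¹ * u ^ s * x) ∧
    Commute ((u ^ p) ^ (s + 1)) (x * u ^ s * x⁻¹) := by
  have hzu : Commute (u ^ p) u := (Commute.refl u).pow_left p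
  have hzW : Commute (u ^ p) (x * u⁻¹ * x * u) := by
    rw [← hB]; exact (Commute.refl _).pow_left 2
  have hw : Commute (u ^ p) (x * u⁻¹ * x) := by
    have := hzW.mul_right hzu.inv_right
    simpa using this
  refine ⟨hw, ?_⟩
  have hconj1 : h⁻¹ * u ^ p * h = (u ^ p) ^ (s + 1) := by
    rw [conj_inv_pow, hA, ← pow_mul, ← pow_mul, mul_comm]
  have hxh' : h⁻¹ * x * h = x := by rw [mul_assoc, hxh.eq]; group
  have hconj2 : h⁻¹ * (x * u⁻¹ * x) * h = x * (u ^ (s + 1))⁻¹ * x := by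
    calc h⁻¹ * (x * u⁻¹ * x) * h = (h⁻¹ * x * h) * (h⁻¹ * u * h)⁻¹ * (h⁻¹ * x * h) := by group
      _ = _ := by rw [hxh', hA]
  have hw' : Commute ((u ^ p) ^ (s + 1)) (x * (u ^ (s + 1))⁻¹ * x) := by
    have := commute_conj_inv hw h
    rwa [hconj1, hconj2] at this
  have hw2 : Commute ((u ^ p) ^ (s + 1)) (x * u⁻¹ * x) := hw.pow_left _
  constructor
  · have := hw'.inv_right.mul_right hw2
    have e : (x * (u ^ (s + 1))⁻¹ * x)⁻¹ * (x * u⁻¹ * x) = x⁻¹ * u ^ s * x := by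
      rw [pow_succ]; group
    rwa [e] at this
  · have := hw2.mul_right hw'.inv_right
    have e : (x * u⁻¹ * x) * (x * (u ^ (s + 1))⁻¹ * x)⁻¹ = x * u ^ s * x⁻¹ := by
      rw [pow_succ']; group
    rwa [e] at this

/-- The core commutation argument: `u^p` commutes with `x`. -/
theorem core {G : Type*} [Group G] {x h u : G} {p s t q n : ℕ} (hp4 : 4 ≤ p)
    (hxh : Commute x h)
    (hA : h⁻¹ * u * h = u ^ (s + 1))
    (hB : (x * u⁻¹ * x * u) ^ 2 = u ^ p)
    (hz : (u ^ p) ^ s = 1)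
    (hq : p * t = 1 + s * q)
    (hcop : Nat.Coprime (p - 4) s)
    (hn : p ∣ (s + 1) ^ n + 1) :
    Commute (u ^ p) x ∧ Commute (u ^ p) h := by
  obtain ⟨hw, hc1, hc2⟩ := comm_facts hxh hA hB
  have hzr : (u ^ p) ^ (s + 1) = u ^ p := by rw [pow_succ, hz, one_mul]
  rw [hzr] at hc1 hc2
  have hzh : Commute (u ^ p) h := by
    have hconj1 : h⁻¹ * u ^ p * h = u ^ p := by
      rw [conj_inv_pow, hA, ← pow_mul, mul_comm, pow_mul, hzr]
    calc u ^ p * h = h * (h⁻¹ * u ^ p * h) := by group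
      _ = h * u ^ p := by rw [hconj1]
  refine ⟨?_, hzh⟩
  have hzu : Commute (u ^ p) u := (Commute.refl u).pow_left p
  obtain ⟨D, hD⟩ : ∃ D, D = (u ^ p) ^ t := ⟨_, rfl⟩
  obtain ⟨v, hv⟩ : ∃ v, v = ((u ^ s) ^ q)⁻¹ := ⟨_, rfl⟩
  have hDv : Commute D v := by
    rw [hD, hv]
    exact ((((Commute.refl u).pow_pow _ _).pow_pow _ _).inv_right)
  have huvD : u = v * D := by
    rw [hv, hD, ← pow_mul, ← pow_mul, hq, pow_add, pow_one]
    have : u * u ^ (s * q) = u ^ (s * q) * u := ((Commute.refl u).pow_right _).eq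
    rw [this]; group
  have hvp : v ^ p = 1 := by
    rw [hv, inv_pow, ← pow_mul, ← pow_mul, show s * (q * p) = p * s * q by ring, pow_mul, pow_mul,
      hz]
    simp
  have hDs : D ^ s = 1 := by
    rw [hD, ← pow_mul, mul_comm, pow_mul, hz, one_pow]
  have hDp : D ^ p = u ^ p := by
    rw [hD, ← pow_mul, mul_comm t p, hq, pow_add, pow_one, pow_mul (u ^ p) s q, hz, one_pow, mul_one]
  have hDu : Commute D u := by rw [hD]; exact hzu.pow_left t
  have hDh : Commute D h := by rw [hD]; exact hzh.pow_left t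
  have hDw : Commute D (x * u⁻¹ * x) := by rw [hD]; exact hw.pow_left t
  have hDxv : Commute D (x * v * x⁻¹) := by
    have h1 : x * v * x⁻¹ = ((x * u ^ s * x⁻¹) ^ q)⁻¹ := by
      rw [hv, ← conj_pow' x (u ^ s) q]; group
    rw [h1, hD]
    exact ((hc2.pow_right q).pow_left t).inv_right
  have hDvx : Commute D (x⁻¹ * v * x) := by
    have h1 : x⁻¹ * v * x = ((x⁻¹ * u ^ s * x) ^ q)⁻¹ := by
      rw [hv, ← conj_inv_pow x (u ^ s) q]; group
    rw [h1, hD]
    exact ((hc1.pow_right q).pow_left t).inv_right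
  have hDxDx : Commute D (x * D⁻¹ * x) := by
    have h1 : x * D⁻¹ * x = (x * v * x⁻¹) * (x * u⁻¹ * x) := by
      have : u⁻¹ = v⁻¹ * D⁻¹ := by rw [huvD, hDv.symm.eq, mul_inv_rev]
      rw [this]; group
    rw [h1]
    exact hDxv.mul_right hDw
  -- c0
  have hc0D : Commute (x * D⁻¹ * (x * D⁻¹)) D := by
    have : x * D⁻¹ * (x * D⁻¹) = (x * D⁻¹ * x) * D⁻¹ := by group
    rw [this]
    exact (hDxDx.symm).mul_left ((Commute.refl D).inv_left)
  have hc0x : Commute (x * D⁻¹ * (x * D⁻¹)) x := by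
    have h1 : Commute (x * D⁻¹ * (x * D⁻¹)) (x * D⁻¹) :=
      (Commute.refl _).mul_left (Commute.refl _)
    have h2 := h1.mul_right hc0D
    simpa using h2
  obtain ⟨e, he⟩ : ∃ e, e = x⁻¹ * D⁻¹ * x * D⁻¹ := ⟨_, rfl⟩
  have hex : Commute e x := by
    have h1 : e = x⁻¹ * x⁻¹ * (x * D⁻¹ * (x * D⁻¹)) := by rw [he]; group
    rw [h1]
    exact ((Commute.refl x).inv_left.mul_left (Commute.refl x).inv_left).mul_left hc0x
  have hxDv : Commute (x⁻¹ * D * x) v := by
    have := commute_conj_inv hDxv x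
    have e1 : x⁻¹ * (x * v * x⁻¹) * x = v := by group
    rwa [e1] at this
  have hev : Commute e v := by
    have h1 : e = (x⁻¹ * D * x)⁻¹ * D⁻¹ := by rw [he]; group
    rw [h1]
    exact hxDv.inv_left.mul_left hDv.inv_left
  have heh : Commute e h := by
    rw [he]
    exact (((hxh.inv_left).mul_left hDh.inv_left).mul_left hxh).mul_left hDh.inv_left
  have hDx : D⁻¹ * x = x * e * D := by rw [he]; group
  have hxD : D * x = x * D⁻¹ * e⁻¹ := by
    have h1 : x * D⁻¹ = D * x * e := by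
      calc x * D⁻¹ = D * (D⁻¹ * x) * D⁻¹ := by group
        _ = D * (x * e * D) * D⁻¹ := by rw [hDx]
        _ = D * x * e := by group
    rw [h1]; group
  obtain ⟨X, hX⟩ : ∃ X, X = x * v⁻¹ * x * v := ⟨_, rfl⟩
  have hXe : Commute X e := by
    rw [hX]
    exact (((hex.symm.mul_left hev.symm.inv_left).mul_left hex.symm).mul_left hev.symm)
  have hXeD : Commute (X * e) D := by
    have h1 : D * X = X * (e * D * e⁻¹) := by
      calc D * X = (D * x) * v⁻¹ * x * v := by rw [hX]; group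
        _ = x * ((D⁻¹ * e⁻¹) * v⁻¹) * x * v := by rw [hxD]; group
        _ = x * (v⁻¹ * (D⁻¹ * e⁻¹)) * x * v := by
            rw [(hDv.inv_inv.mul_left hev.inv_inv).eq]
        _ = x * v⁻¹ * D⁻¹ * (e⁻¹ * x) * v := by group
        _ = x * v⁻¹ * D⁻¹ * (x * e⁻¹) * v := by rw [hex.inv_left.eq]
        _ = x * v⁻¹ * (D⁻¹ * x) * e⁻¹ * v := by group
        _ = x * v⁻¹ * x * ((e * D * e⁻¹) * v) := by rw [hDx]; group
        _ = x * v⁻¹ * x * (v * (e * D * e⁻¹)) := by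
            rw [((hev.mul_left hDv).mul_left hev.inv_left).eq]
        _ = X * (e * D * e⁻¹) := by rw [hX]; group
    have h2 : D * (X * e) = X * e * D := by
      rw [← mul_assoc, h1]; group
    exact h2.symm
  have hW : x * u⁻¹ * x * u = X * e * (D * D) := by
    have h1 : u⁻¹ = v⁻¹ * D⁻¹ := by rw [huvD, hDv.symm.eq, mul_inv_rev]
    have h2 : u = D * v := by rw [hDv.eq]; exact huvD
    calc x * u⁻¹ * x * u = x * v⁻¹ * (D⁻¹ * x) * D * v := by
          rw [h1]; conv_lhs => rw [h2]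
          group
      _ = x * v⁻¹ * x * ((e * D * D) * v) := by rw [hDx]; group
      _ = x * v⁻¹ * x * (v * (e * D * D)) := by
          rw [((hev.mul_left hDv).mul_left hDv).eq]
      _ = X * e * (D * D) := by rw [hX]; group
  have hXe2 : (X * e) ^ 2 = D ^ (p - 4) := by
    have h1 : (X * e) ^ 2 * D ^ 4 = D ^ (p - 4) * D ^ 4 := by
      rw [← pow_add, Nat.sub_add_cancel hp4, hDp, ← hB, hW]
      have h2 : Commute (X * e) (D * D) := hXeD.mul_right hXeD
      rw [h2.mul_pow 2]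
      simp [pow_succ, mul_assoc]
    exact mul_right_cancel h1
  have hXX : X ^ 2 = D ^ (p - 4) * (e ^ 2)⁻¹ := by
    rw [← hXe2, hXe.mul_pow]; group
  have hXv : Commute (X ^ 2) v := by
    rw [hXX]; exact (hDv.pow_left _).mul_left (hev.pow_left _).inv_left
  have hXh : Commute (X ^ 2) h := by
    rw [hXX]; exact (hDh.pow_left _).mul_left (heh.pow_left _).inv_left
  -- conjugation of v by powers of h
  have hvh : ∀ j : ℕ, (h ^ j)⁻¹ * v * h ^ j = v ^ ((s + 1) ^ j) := by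
    intro j
    induction j with
    | zero => simp
    | succ j ih =>
      have h1 : h⁻¹ * v * h = v ^ (s + 1) := by
        have : h⁻¹ * v * h = (((h⁻¹ * u * h) ^ s) ^ q)⁻¹ := by
          rw [hv, ← conj_inv_pow h u s, ← conj_inv_pow h (u ^ s) q]; group
        rw [this, hA, hv, inv_pow, ← pow_mul, ← pow_mul, ← pow_mul, ← pow_mul]
        congr 2; ring
      calc (h ^ (j + 1))⁻¹ * v * h ^ (j + 1) = h⁻¹ * ((h ^ j)⁻¹ * v * h ^ j) * h := by
            rw [pow_succ]; group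
        _ = h⁻¹ * v ^ ((s + 1) ^ j) * h := by rw [ih]
        _ = (h⁻¹ * v * h) ^ ((s + 1) ^ j) := conj_inv_pow h v _
        _ = v ^ ((s + 1) ^ (j + 1)) := by rw [h1, ← pow_mul]; congr 1; ring
  have hvn : v ^ ((s + 1) ^ n) = v⁻¹ := by
    obtain ⟨c, hc⟩ := hn
    have : v ^ ((s + 1) ^ n) * v = 1 := by
      rw [← pow_succ, hc, pow_mul, hvp, one_pow]
    exact eq_inv_of_mul_eq_one_left this
  have hhn : (h ^ n)⁻¹ * v * h ^ n = v⁻¹ := by rw [hvh n, hvn]
  have hxn : (h ^ n)⁻¹ * x * h ^ n = x := by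
    rw [mul_assoc, (hxh.pow_right n).eq]; group
  have hXn : (h ^ n)⁻¹ * X * h ^ n = x * v * x * v⁻¹ := by
    calc (h ^ n)⁻¹ * X * h ^ n = ((h ^ n)⁻¹ * x * h ^ n) * ((h ^ n)⁻¹ * v * h ^ n)⁻¹ *
          ((h ^ n)⁻¹ * x * h ^ n) * ((h ^ n)⁻¹ * v * h ^ n) := by rw [hX]; group
      _ = _ := by rw [hxn, hhn]; group
  have e1 : (x * v * x * v⁻¹) ^ 2 = X ^ 2 := by
    rw [← hXn, ← conj_inv_pow, mul_assoc, (hXh.pow_right n).eq]; group
  have e2 : (v⁻¹ * x * v * x) ^ 2 = X ^ 2 := by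
    have h1 : v⁻¹ * x * v * x = v⁻¹ * (x * v * x * v⁻¹) * v := by group
    rw [h1, ← conj_inv_pow, e1, mul_assoc, hXv.eq]; group
  have e3 : x⁻¹ * X ^ 2 * x = X ^ 2 := by
    rw [conj_inv_pow]
    have h1 : x⁻¹ * X * x = v⁻¹ * x * v * x := by rw [hX]; group
    rw [h1, e2]
  have hXx : Commute (X ^ 2) x := by
    calc X ^ 2 * x = x * (x⁻¹ * X ^ 2 * x) := by group
      _ = x * X ^ 2 := by rw [e3]
  have hD4x : Commute (D ^ (p - 4)) x := by
    rw [← hXe2, hXe.mul_pow]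
    exact hXx.mul_left (hex.pow_left 2)
  have hDxx : Commute D x := (commute_of_pow_pow_one hD4x.symm hDs hcop).symm
  rw [← hDp]
  exact hDxx.pow_left p

end Pool.Agent.Helper41.DZ
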