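import Pool.Agent.Helper41.DZ.Stage3

namespace Pool.Agent.Helper41.DZ

open Subgroup

/-- In `⟨a, b | a^3 = b^3 = z, (ab)^2 = 1⟩` the central element `z` satisfies `z^8 = 1`. -/
theorem pow_eight {G : Type*} [Group G] {a b z : G} (ha : a ^ 3 = z) (hb : b ^ 3 = z)
    (hza : Commute z a) (hzb : Commute z b) (hab : (a * b) ^ 2 = 1) : z ^ 8 = 1 := by
  have haa : a * a = z * a⁻¹ := by rw [← ha]; simp [pow_succ]
  have hbb : b * b = z * b⁻¹ := by rw [← hb]; simp [pow_succ]
  have hbab : b * a * b = a⁻¹ := by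
    have : a * (b * a * b) = 1 := by rw [← hab]; simp [pow_two, mul_assoc]
    exact (inv_eq_of_mul_eq_one_right this).symm
  have hcinv : (a * b)⁻¹ = a * b := by
    apply inv_eq_of_mul_eq_one_right
    rw [← hab, pow_two]
  have hz1 : Commute z (b * a⁻¹) := hzb.mul_right hza.inv_right
  have hz2 : Commute z b⁻¹ := hzb.inv_right
  have key : (b * a) * (a * b) * (b * a) = z ^ 4 * (a * b) := by
    calc (b * a) * (a * b) * (b * a) = b * (a * a) * (b * b) * a := by group
      _ = b * (z * a⁻¹) * (z * b⁻¹) * a := by rw [haa, hbb]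
      _ = (b * z) * a⁻¹ * z * b⁻¹ * a := by group
      _ = (z * b) * a⁻¹ * z * b⁻¹ * a := by rw [hzb.eq]
      _ = z * ((b * a⁻¹) * z) * b⁻¹ * a := by group
      _ = z * (z * (b * a⁻¹)) * b⁻¹ * a := by rw [hz1.eq]
      _ = z * z * (b * a⁻¹ * b⁻¹ * a) := by group
      _ = z * z * (b * (b * a * b) * b⁻¹ * a) := by rw [hbab]
      _ = z * z * ((b * b) * (a * a)) := by group
      _ = z * z * ((z * b⁻¹) * (z * a⁻¹)) := by rw [haa, hbb]
      _ = z * z * z * (b⁻¹ * z) * a⁻¹ := by group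
      _ = z * z * z * (z * b⁻¹) * a⁻¹ := by rw [hz2.eq]
      _ = z ^ 4 * (a * b)⁻¹ := by simp [pow_succ, mul_assoc]
      _ = z ^ 4 * (a * b) := by rw [hcinv]
  have hba : (b * a) * (b * a) = 1 := by
    calc (b * a) * (b * a) = (b * a * b) * a := by group
      _ = 1 := by rw [hbab]; group
  have hz4 : Commute (z ^ 4) (b * a) := (hzb.mul_right hza).pow_left 4
  have h1 : a * b = z ^ 8 * (a * b) := by
    calc a * b = ((b * a) * (b * a)) * (a * b) * ((b * a) * (b * a)) := by rw [hba]; group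
      _ = (b * a) * ((b * a) * (a * b) * (b * a)) * (b * a) := by group
      _ = (b * a) * (z ^ 4 * (a * b)) * (b * a) := by rw [key]
      _ = ((b * a) * z ^ 4) * (a * b) * (b * a) := by group
      _ = (z ^ 4 * (b * a)) * (a * b) * (b * a) := by rw [hz4.eq]
      _ = z ^ 4 * ((b * a) * (a * b) * (b * a)) := by group
      _ = z ^ 4 * (z ^ 4 * (a * b)) := by rw [key]
      _ = z ^ 8 * (a * b) := by group
  have h2 : 1 * (a * b) = z ^ 8 * (a * b) := by rw [one_mul]; exact h1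
  exact (mul_right_cancel h2).symm

theorem stage2 {G : Type*} [Group G] {m p r : ℕ} [Fact p.Prime] {g u : G}
    (hp : p = 3 * m + 2)
    (hgen : closure {g, u} = (⊤ : Subgroup G))
    (hr0 : (r : ZMod p) ≠ 0)
    (hr : ∀ c : ZMod p, c ≠ 0 → ∃ n : ℕ, (r : ZMod p) ^ n = c)
    (hA : (g ^ 3)⁻¹ * u * g ^ 3 = u ^ r)
    (hu : u ^ p = 1)
    (hB : (g ^ (3 * m + 1) * u⁻¹ * g ^ (3 * m + 1) * u) ^ 2 = 1) : Finite G := by
  obtain ⟨z, hz⟩ : ∃ z, z = (g ^ (3 * m + 1)) ^ 3 := ⟨_, rfl⟩
  have hzg : Commute z g := by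
    rw [hz, ← pow_mul]; exact (Commute.refl g).pow_left _
  have hAn : ∀ n : ℕ, ((g ^ 3) ^ n)⁻¹ * u * (g ^ 3) ^ n = u ^ (r ^ n) := by
    intro n
    induction n with
    | zero => simp
    | succ n ih =>
      calc ((g ^ 3) ^ (n + 1))⁻¹ * u * (g ^ 3) ^ (n + 1)
          = (g ^ 3)⁻¹ * (((g ^ 3) ^ n)⁻¹ * u * (g ^ 3) ^ n) * (g ^ 3) := by
            rw [pow_succ]; group
        _ = (g ^ 3)⁻¹ * u ^ (r ^ n) * (g ^ 3) := by rw [ih]
        _ = ((g ^ 3)⁻¹ * u * (g ^ 3)) ^ (r ^ n) := conj_inv_pow _ u _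
        _ = u ^ (r ^ (n + 1)) := by
            rw [hA, ← pow_mul]; congr 1; ring
  have hrk : (r : ZMod p) ^ (3 * m + 1) = 1 := by
    have := ZMod.pow_card_sub_one_eq_one hr0
    rwa [show p - 1 = 3 * m + 1 by omega] at this
  have hzu : Commute z u := by
    have h1 := hAn (3 * m + 1)
    have h2 : u ^ (r ^ (3 * m + 1)) = u := by
      have e : (((r ^ (3 * m + 1) : ℕ) : ZMod p)) = ((1 : ℕ) : ZMod p) := by
        push_cast; exact hrk
      have e2 := (ZMod.natCast_eq_natCast_iff' _ _ p).1 e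
      rw [pow_eq_pow_mod _ hu, e2, ← pow_eq_pow_mod _ hu, pow_one]
    rw [h2] at h1
    have h3 : (g ^ 3) ^ (3 * m + 1) = z := by rw [hz, ← pow_mul, ← pow_mul]; congr 1; ring
    rw [h3] at h1
    have h4 : u * z = z * u := by
      calc u * z = z * (z⁻¹ * u * z) := by group
        _ = z * u := by rw [h1]
    exact h4.symm
  have hcent := central_of_commute hgen hzg hzu
  have hz8 : z ^ 8 = 1 := by
    refine pow_eight (a := g ^ (3 * m + 1)) (b := u⁻¹ * g ^ (3 * m + 1) * u) hz.symm ?_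
      (hcent _) (hcent _) ?_
    · rw [← conj_inv_pow, ← hz, mul_assoc, hzu.eq]; group
    · rw [← hB]; group
  have hfin : Finite (zpowers z) := finite_zpowers_of_pow_eq_one (by norm_num) hz8
  have hnor : (zpowers z).Normal := zpowers_normal_of_central hcent
  have hQ : Finite (G ⧸ zpowers z) := by
    refine stage3 (m := m) (p := p) (r := r) (closure_quot (zpowers z) hgen) hr ?_ ?_ ?_ ?_
    · have := congrArg (QuotientGroup.mk' (zpowers z)) hA
      simpa using this
    · have := congrArg (QuotientGroup.mk' (zpowers z)) hu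
      simpa using this
    · have := congrArg (QuotientGroup.mk' (zpowers z)) hB
      simpa using this
    · have : (QuotientGroup.mk z : G ⧸ zpowers z) = 1 :=
        (QuotientGroup.eq_one_iff z).2 (mem_zpowers z)
      rw [← QuotientGroup.mk_pow, ← QuotientGroup.mk_pow, ← hz]
      exact this
  exact finite_of_normal_quot (zpowers z)

end Pool.Agent.Helper41.DZ
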