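import Pool.Agent.Helper41.DZ.Carmichael

namespace Pool.Agent.Helper41.DZ

open Subgroup

/-- Last stage: the letter `x = g^(3m+1)` has order dividing `3`. -/
theorem stage3 {G : Type*} [Group G] {m p r : ℕ} [Fact p.Prime] {g u : G}
    (hgen : closure {g, u} = (⊤ : Subgroup G))
    (hr : ∀ c : ZMod p, c ≠ 0 → ∃ n : ℕ, (r : ZMod p) ^ n = c)
    (hA : (g ^ 3)⁻¹ * u * g ^ 3 = u ^ r)
    (hu : u ^ p = 1)
    (hB : (g ^ (3 * m + 1) * u⁻¹ * g ^ (3 * m + 1) * u) ^ 2 = 1)
    (hx : (g ^ (3 * m + 1)) ^ 3 = 1) : Finite G := by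
  obtain ⟨x, hxdef⟩ : ∃ x, x = g ^ (3 * m + 1) := ⟨_, rfl⟩
  obtain ⟨h, hhdef⟩ : ∃ h, h = g ^ 3 := ⟨_, rfl⟩
  rw [← hxdef] at hB hx
  rw [← hhdef] at hA
  have hxh : Commute x h := by
    rw [hxdef, hhdef]; exact (Commute.refl g).pow_pow _ _
  have hgxh : g = x * (h ^ m)⁻¹ := by
    rw [hxdef, hhdef, ← pow_mul, pow_add, pow_one]
    have : g ^ (3 * m) * g = g * g ^ (3 * m) := ((Commute.refl g).pow_left _).eq
    rw [this]; group
  have hp0 : 0 < p := (Fact.out : p.Prime).pos
  -- conjugation of powers of u by powers of h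
  have hAn : ∀ n j : ℕ, (h ^ n)⁻¹ * u ^ j * h ^ n = u ^ (j * r ^ n) := by
    intro n
    induction n with
    | zero => intro j; simp
    | succ n ih =>
      intro j
      calc (h ^ (n + 1))⁻¹ * u ^ j * h ^ (n + 1) = h⁻¹ * ((h ^ n)⁻¹ * u ^ j * h ^ n) * h := by
            rw [pow_succ]; group
        _ = h⁻¹ * u ^ (j * r ^ n) * h := by rw [ih]
        _ = (h⁻¹ * u * h) ^ (j * r ^ n) := conj_inv_pow h u _
        _ = u ^ (j * r ^ (n + 1)) := by
            rw [hA, ← pow_mul]; congr 1; ring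
  have humod : ∀ a b : ℕ, (a : ZMod p) = (b : ZMod p) → u ^ a = u ^ b := by
    intro a b hab
    rw [pow_eq_pow_mod a hu, pow_eq_pow_mod b hu]
    rw [(ZMod.natCast_eq_natCast_iff' a b p).1 hab]
  let X : ZMod p → G := fun i => (u ^ i.val)⁻¹ * x * u ^ i.val
  have hX : ∀ a : ℕ, X (a : ZMod p) = (u ^ a)⁻¹ * x * u ^ a := by
    intro a
    simp only [X]
    rw [humod ((a : ZMod p).val) a (by simp)]
  have hX' : ∀ (i : ZMod p) (a : ℕ), (a : ZMod p) = i → X i = (u ^ a)⁻¹ * x * u ^ a := by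
    intro i a hi
    rw [← hi]; exact hX a
  have hXconj : ∀ (i : ZMod p) (a : ℕ), (u ^ a)⁻¹ * X i * u ^ a = X (i + a) := by
    intro i a
    rw [hX' (i + a) (i.val + a) (by simp)]
    simp only [X]
    rw [pow_add]; group
  have hXh : ∀ i : ZMod p, h⁻¹ * X i * h = X (i * r) := by
    intro i
    rw [hX' (i * r) (i.val * r) (by simp)]
    have h1 := hAn 1 i.val
    rw [pow_one, pow_one] at h1
    have h2 : h⁻¹ * x * h = x := by rw [mul_assoc, hxh.eq]; group
    calc h⁻¹ * X i * h = (h⁻¹ * u ^ i.val * h)⁻¹ * (h⁻¹ * x * h) * (h⁻¹ * u ^ i.val * h) := by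
          simp only [X]; group
      _ = _ := by rw [h1, h2]
  have hX3 : ∀ i, X i ^ 3 = 1 := by
    intro i
    simp only [X]
    rw [← conj_inv_pow, hx]; group
  have hpair0 : (X 0 * X 1) ^ 2 = 1 := by
    have h0 : X 0 = x := by
      have := hX 0
      simpa using this
    have h1 : X 1 = u⁻¹ * x * u := by
      have := hX 1
      simpa using this
    rw [h0, h1, ← hB]
    group
  have hpair1 : ∀ n : ℕ, (X 0 * X ((r : ZMod p) ^ n)) ^ 2 = 1 := by
    intro n
    induction n with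
    | zero => simpa using hpair0
    | succ n ih =>
      have h1 : h⁻¹ * (X 0 * X ((r : ZMod p) ^ n)) ^ 2 * h = 1 := by
        rw [ih]; group
      rw [conj_inv_pow] at h1
      have h2 : h⁻¹ * (X 0 * X ((r : ZMod p) ^ n)) * h = X 0 * X ((r : ZMod p) ^ (n + 1)) := by
        calc h⁻¹ * (X 0 * X ((r : ZMod p) ^ n)) * h
            = (h⁻¹ * X 0 * h) * (h⁻¹ * X ((r : ZMod p) ^ n) * h) := by group
          _ = _ := by rw [hXh, hXh, zero_mul, pow_succ]
      rwa [h2] at h1
  have hpair : ∀ i j, i ≠ j → (X i * X j) ^ 2 = 1 := by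
    intro i j hij
    obtain ⟨n, hn⟩ := hr (j - i) (sub_ne_zero.2 (Ne.symm hij))
    have h1 := hpair1 n
    rw [hn] at h1
    have h2 : (u ^ i.val)⁻¹ * (X 0 * X (j - i)) ^ 2 * u ^ i.val = 1 := by
      rw [h1]; group
    rw [conj_inv_pow] at h2
    have h3 : (u ^ i.val)⁻¹ * (X 0 * X (j - i)) * u ^ i.val = X i * X j := by
      calc (u ^ i.val)⁻¹ * (X 0 * X (j - i)) * u ^ i.val
          = ((u ^ i.val)⁻¹ * X 0 * u ^ i.val) * ((u ^ i.val)⁻¹ * X (j - i) * u ^ i.val) := by
            group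
        _ = _ := by rw [hXconj, hXconj]; simp
    rwa [h3] at h2
  have hfin := carmichael_finite X hX3 hpair
  set N := closure (Set.range X) with hN
  have hXN : ∀ i, X i ∈ N := fun i => subset_closure ⟨i, rfl⟩
  have hconjN : ∀ s : G, (∀ i, s⁻¹ * X i * s ∈ N) → s ∈ Subgroup.normalizer (N : Set G) := by
    intro s hs
    apply mem_normalizer_of_conj
    intro n hn
    have hle : N ≤ N.comap (MulAut.conj s⁻¹).toMonoidHom := by
      rw [hN, closure_le]
      rintro _ ⟨i, rfl⟩
      simp only [SetLike.mem_coe, Subgroup.mem_comap]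
      have := hs i
      simpa using this
    have := hle hn
    simpa using this
  have hxN : x ∈ N := by
    have := hXN 0
    have h0 : X 0 = x := by
      have := hX 0
      simpa using this
    rwa [h0] at this
  have hhnorm : h ∈ Subgroup.normalizer (N : Set G) := hconjN h (fun i => by rw [hXh]; exact hXN _)
  have hunorm : u ∈ Subgroup.normalizer (N : Set G) := hconjN u (fun i => by
    have := hXconj i 1
    rw [pow_one] at this
    rw [this]; exact hXN _)
  have hxnorm : x ∈ Subgroup.normalizer (N : Set G) := Subgroup.le_normalizer hxN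
  have hgnorm : g ∈ Subgroup.normalizer (N : Set G) := by
    rw [hgxh]
    exact mul_mem hxnorm (inv_mem (pow_mem hhnorm m))
  have hNn : N.Normal := normal_of_gens hgen (by
    rintro s (rfl | rfl)
    · exact hgnorm
    · exact hunorm)
  -- the quotient by N
  have hQgen := closure_quot N hgen
  have hxQ : (QuotientGroup.mk x : G ⧸ N) = 1 := (QuotientGroup.eq_one_iff x).2 hxN
  have hAQ : (QuotientGroup.mk h : G ⧸ N)⁻¹ * QuotientGroup.mk u * QuotientGroup.mk h =
      (QuotientGroup.mk u : G ⧸ N) ^ r := by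
    rw [← QuotientGroup.mk_inv, ← QuotientGroup.mk_mul, ← QuotientGroup.mk_mul, hA,
      QuotientGroup.mk_pow]
  have huQ : (QuotientGroup.mk u : G ⧸ N) ^ p = 1 := by
    rw [← QuotientGroup.mk_pow, hu]; rfl
  have hgQ : (QuotientGroup.mk g : G ⧸ N) ^ (3 * m + 1) = 1 := by
    rw [← QuotientGroup.mk_pow, ← hxdef]; exact hxQ
  have hgQ' : (QuotientGroup.mk g : G ⧸ N) = ((QuotientGroup.mk h : G ⧸ N) ^ m)⁻¹ := by
    conv_lhs => rw [hgxh]
    rw [QuotientGroup.mk_mul, hxQ, one_mul, QuotientGroup.mk_inv, QuotientGroup.mk_pow]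
  have hfinU : Finite (zpowers (QuotientGroup.mk u : G ⧸ N)) :=
    finite_zpowers_of_pow_eq_one hp0 huQ
  set U := zpowers (QuotientGroup.mk u : G ⧸ N) with hU
  have huU : (QuotientGroup.mk u : G ⧸ N) ∈ Subgroup.normalizer (U : Set (G ⧸ N)) :=
    Subgroup.le_normalizer (mem_zpowers _)
  have hhU : (QuotientGroup.mk h : G ⧸ N) ∈ Subgroup.normalizer (U : Set (G ⧸ N)) := by
    apply mem_normalizer_of_conj
    intro n hn
    have hle : U ≤ U.comap (MulAut.conj (QuotientGroup.mk h : G ⧸ N)⁻¹).toMonoidHom := by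
      rw [hU, zpowers_le]
      simp only [Subgroup.mem_comap]
      have : (MulAut.conj (QuotientGroup.mk h : G ⧸ N)⁻¹).toMonoidHom (QuotientGroup.mk u) =
        (QuotientGroup.mk u : G ⧸ N) ^ r := by
        rw [← hAQ]; simp
      rw [this]
      exact pow_mem (mem_zpowers _) r
    have := hle hn
    simpa using this
  have hUn : U.Normal := normal_of_gens hQgen (by
    rintro s (rfl | rfl)
    · rw [hgQ']; exact inv_mem (pow_mem hhU m)
    · exact huU)
  have hQ2gen := closure_quot U hQgen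
  have hfinQ2 : Finite ((G ⧸ N) ⧸ U) := by
    refine finite_of_gen_one hQ2gen ?_ (n := 3 * m + 1) (by omega) ?_
    · exact (QuotientGroup.eq_one_iff _).2 (mem_zpowers _)
    · rw [← QuotientGroup.mk_pow, hgQ]; rfl
  have : Finite (G ⧸ N) := finite_of_normal_quot U
  exact finite_of_normal_quot N

end Pool.Agent.Helper41.DZ
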